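import Pool.Agent.R672.DV.Defs

/-! Magnus embedding and chain rule lemmas. -/

namespace Pool.Agent.R672.DV

universe u

variable {F : Type u} [Field F]

section
variable {𝔞 R M : Type*} [AddCommGroup 𝔞] [Module F 𝔞]
  [CommRing R] [Algebra F R] [AddCommGroup M] [Module R M] [Module F M] [IsScalarTower F R M]

/-- the second component of the chain rule map -/
noncomputable def ChS (e : MvPolynomial ℕ F →ₐ[F] R) (v : ℕ → M) (p : ℕ →₀ MvPolynomial ℕ F) : M :=
  p.sum (fun k q => e q • v k)

theorem ChS_add (e : MvPolynomial ℕ F →ₐ[F] R) (v : ℕ → M) (p q : ℕ →₀ MvPolynomial ℕ F) :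
    ChS e v (p + q) = ChS e v p + ChS e v q := by
  unfold ChS
  exact Finsupp.sum_add_index' (fun k => by rw [map_zero, zero_smul])
    (fun k a b => by rw [map_add, add_smul])

theorem ChS_smul (e : MvPolynomial ℕ F →ₐ[F] R) (v : ℕ → M) (r : MvPolynomial ℕ F)
    (p : ℕ →₀ MvPolynomial ℕ F) : ChS e v (r • p) = e r • ChS e v p := by
  unfold ChS
  rw [Finsupp.sum_smul_index' (fun k => by rw [map_zero, zero_smul]), Finsupp.smul_sum]
  apply Finsupp.sum_congr
  intro k _
  rw [smul_eq_mul, map_mul, mul_smul]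

theorem ChS_smul' (e : MvPolynomial ℕ F →ₐ[F] R) (v : ℕ → M) (r : F)
    (p : ℕ →₀ MvPolynomial ℕ F) : ChS e v (r • p) = r • ChS e v p := by
  unfold ChS
  rw [Finsupp.sum_smul_index' (fun k => by rw [map_zero, zero_smul]), Finsupp.smul_sum]
  apply Finsupp.sum_congr
  intro k _
  rw [map_smul, smul_assoc]

theorem ChS_sub (e : MvPolynomial ℕ F →ₐ[F] R) (v : ℕ → M) (p q : ℕ →₀ MvPolynomial ℕ F) :
    ChS e v (p - q) = ChS e v p - ChS e v q := by
  have h : ChS e v (p - q) + ChS e v q = ChS e v p := by rw [← ChS_add, sub_add_cancel]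
  rw [← h, add_sub_cancel_right]

/-- the chain rule map -/
noncomputable def ChPsi (ℓ : 𝔞 →ₗ[F] R) (y : ℕ → Wr ℓ M) : WF F →ₗ⁅F⁆ Wr ℓ M where
  toFun x := (Finsupp.linearCombination F (fun k => (y k).1) x.1,
    ChS (MvPolynomial.aeval (fun i => ℓ (y i).1)) (fun k => (y k).2) x.2)
  map_add' x x' := by
    apply Wr.ext
    · exact map_add _ _ _
    · exact ChS_add _ _ _ _
  map_smul' r x := by
    apply Wr.ext
    · exact map_smul _ _ _
    · exact ChS_smul' _ _ _ _
  map_lie' := by
    intro x x'
    have key : ∀ c : ℕ →₀ F, MvPolynomial.aeval (fun i => ℓ (y i).1) (tlin F c) =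
        ℓ (Finsupp.linearCombination F (fun k => (y k).1) c) := by
      intro c
      unfold tlin
      rw [Finsupp.linearCombination_apply, Finsupp.linearCombination_apply, Finsupp.sum, Finsupp.sum,
        map_sum, map_sum]
      apply Finset.sum_congr rfl
      intro k _
      rw [map_smul, map_smul, MvPolynomial.aeval_X]
    apply Wr.ext
    · change Finsupp.linearCombination F (fun k => (y k).1) (0 : ℕ →₀ F) = 0
      exact map_zero _
    · change ChS _ _ (tlin F x'.1 • x.2 - tlin F x.1 • x'.2) =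
        ℓ (Finsupp.linearCombination F (fun k => (y k).1) x'.1) • ChS _ _ x.2 -
          ℓ (Finsupp.linearCombination F (fun k => (y k).1) x.1) • ChS _ _ x'.2
      rw [ChS_sub, ChS_smul, ChS_smul, key, key]

theorem lift_wr (ℓ : 𝔞 →ₗ[F] R) (y : ℕ → Wr ℓ M) (f : FreeLieAlgebra F ℕ) :
    FreeLieAlgebra.lift F y f =
      ((((magnus F f).1).sum (fun k c => c • (y k).1),
       ((magnus F f).2).sum
        (fun k p => (MvPolynomial.aeval (fun i => ℓ (y i).1) p : R) • (y k).2)) : Wr ℓ M) := by
  have h : (ChPsi ℓ y).comp (magnus F) = FreeLieAlgebra.lift F y := by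
    apply FreeLieAlgebra.hom_ext
    intro i
    rw [LieHom.comp_apply]
    unfold magnus
    rw [FreeLieAlgebra.lift_of_apply, FreeLieAlgebra.lift_of_apply]
    apply Wr.ext
    · change Finsupp.linearCombination F (fun k => (y k).1) (Finsupp.single i 1) = (y i).1
      rw [Finsupp.linearCombination_single, one_smul]
    · change ChS _ _ (Finsupp.single i 1) = (y i).2
      unfold ChS
      rw [Finsupp.sum_single_index (by rw [map_zero, zero_smul]), map_one, one_smul]
  rw [← h]
  rfl

end

theorem sat_wr {𝔞 R M : Type u} [AddCommGroup 𝔞] [Module F 𝔞]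
    [CommRing R] [Algebra F R] [AddCommGroup M] [Module R M] [Module F M] [IsScalarTower F R M]
    (ℓ : 𝔞 →ₗ[F] R) {f : FreeLieAlgebra F ℕ} (hf : magnus F f = 0) :
    Sat (⟨Wr ℓ M⟩ : LieAlg F) f := by
  intro y
  have h := lift_wr ℓ y f
  rw [hf] at h
  refine h.trans ?_
  apply Wr.ext
  · change (0 : ℕ →₀ F).sum (fun k c => c • (y k).1) = 0
    exact Finsupp.sum_zero_index
  · change (0 : ℕ →₀ MvPolynomial ℕ F).sum
      (fun k p => (MvPolynomial.aeval (fun i => ℓ (y i).1) p : R) • (y k).2) = 0
    exact Finsupp.sum_zero_index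

theorem sat_WF_iff {f : FreeLieAlgebra F ℕ} : Sat (⟨WF F⟩ : LieAlg F) f ↔ magnus F f = 0 := by
  constructor
  · intro h
    exact h (fun i => ((Finsupp.single i 1, Finsupp.single i 1) : WF F))
  · intro h
    exact sat_wr (tlin F) h

theorem mg_zero : magnus F 0 = 0 := (magnus F).toLinearMap.map_zero

theorem mg_add (x y : FreeLieAlgebra F ℕ) : magnus F (x + y) = magnus F x + magnus F y :=
  (magnus F).toLinearMap.map_add x y

theorem mg_smul (c : F) (x : FreeLieAlgebra F ℕ) : magnus F (c • x) = c • magnus F x :=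
  (magnus F).toLinearMap.map_smul c x

theorem magnus_of (i : ℕ) : magnus F (FreeLieAlgebra.of F i) =
    ((Finsupp.single i 1, Finsupp.single i 1) : WF F) := by
  unfold magnus
  rw [FreeLieAlgebra.lift_of_apply]

theorem tlin_single (i : ℕ) : tlin F (Finsupp.single i 1) = MvPolynomial.X i := by
  unfold tlin
  rw [Finsupp.linearCombination_single, one_smul]

theorem magnus_br_fst (f g : FreeLieAlgebra F ℕ) : (magnus F ⁅f, g⁆).1 = 0 := by
  rw [LieHom.map_lie]
  rfl

theorem magnus_br_snd (f g : FreeLieAlgebra F ℕ) : (magnus F ⁅f, g⁆).2 =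
    tlin F (magnus F g).1 • (magnus F f).2 - tlin F (magnus F f).1 • (magnus F g).2 := by
  rw [LieHom.map_lie]
  rfl

theorem mono_pos {m : ℕ} {f : FreeLieAlgebra F ℕ} (h : IsMono F m f) : 1 ≤ m := by
  induction h with
  | gen i => exact le_rfl
  | br _ _ h1 h2 => omega

theorem mono_one {m : ℕ} {f : FreeLieAlgebra F ℕ} (h : IsMono F m f) (hm : m = 1) :
    ∃ i, f = FreeLieAlgebra.of F i := by
  induction h with
  | gen i => exact ⟨i, rfl⟩
  | br h1 h2 _ _ =>
    have := mono_pos h1
    have := mono_pos h2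
    omega

theorem mono_fst {m : ℕ} {f : FreeLieAlgebra F ℕ} (h : IsMono F m f) (hm : 2 ≤ m) :
    (magnus F f).1 = 0 := by
  cases h with
  | gen i => omega
  | br h1 h2 => exact magnus_br_fst _ _

theorem mono_tlin {m : ℕ} {f : FreeLieAlgebra F ℕ} (h : IsMono F m f) (hm : m = 1) :
    (tlin F (magnus F f).1).IsHomogeneous 1 := by
  obtain ⟨i, rfl⟩ := mono_one h hm
  rw [magnus_of]
  change (tlin F (Finsupp.single i 1)).IsHomogeneous 1
  rw [tlin_single]
  exact MvPolynomial.isHomogeneous_X _ _

theorem mono_tlin_mul {a b : ℕ} {g : FreeLieAlgebra F ℕ} (hg : IsMono F b g)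
    {p : MvPolynomial ℕ F} (hp : p.IsHomogeneous (a - 1)) (ha : 1 ≤ a) :
    (tlin F (magnus F g).1 * p).IsHomogeneous (a + b - 1) := by
  have hb := mono_pos hg
  by_cases h1 : b = 1
  · have h2 := (mono_tlin hg h1).mul hp
    have h3 : 1 + (a - 1) = a + b - 1 := by omega
    rwa [h3] at h2
  · rw [mono_fst hg (by omega), map_zero, zero_mul]
    exact MvPolynomial.isHomogeneous_zero _ _ _

theorem mono_snd {m : ℕ} {f : FreeLieAlgebra F ℕ} (h : IsMono F m f) (k : ℕ) :
    ((magnus F f).2 k).IsHomogeneous (m - 1) := by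
  induction h with
  | gen i =>
    rw [magnus_of]
    change (Finsupp.single i (1 : MvPolynomial ℕ F) k).IsHomogeneous (1 - 1)
    rw [Finsupp.single_apply]
    split_ifs
    · exact MvPolynomial.isHomogeneous_one _ _
    · exact MvPolynomial.isHomogeneous_zero _ _ _
  | @br a b f g hf hg h1 h2 =>
    rw [magnus_br_snd]
    rw [Finsupp.sub_apply, Finsupp.smul_apply, Finsupp.smul_apply, smul_eq_mul, smul_eq_mul]
    apply MvPolynomial.IsHomogeneous.sub
    · exact mono_tlin_mul hg h1 (mono_pos hf)
    · have h3 := mono_tlin_mul hf h2 (mono_pos hg)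
      rwa [add_comm b a] at h3

theorem magnus_fst_of_degEQ {m : ℕ} {f : FreeLieAlgebra F ℕ} (hf : f ∈ degEQ F (m + 2)) :
    (magnus F f).1 = 0 := by
  unfold degEQ at hf
  induction hf using Submodule.span_induction with
  | mem x hx => exact mono_fst hx (by omega)
  | zero => rw [mg_zero]; rfl
  | add x y _ _ hx hy =>
    rw [mg_add]
    change (magnus F x).1 + (magnus F y).1 = 0
    rw [hx, hy, add_zero]
  | smul c x _ hx =>
    rw [mg_smul]
    change c • (magnus F x).1 = 0
    rw [hx, smul_zero]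

theorem magnus_snd_of_degEQ {m : ℕ} {f : FreeLieAlgebra F ℕ} (hf : f ∈ degEQ F (m + 1)) (k : ℕ) :
    ((magnus F f).2 k).IsHomogeneous m := by
  unfold degEQ at hf
  induction hf using Submodule.span_induction with
  | mem x hx => exact mono_snd hx k
  | zero =>
    rw [mg_zero]
    exact MvPolynomial.isHomogeneous_zero _ _ _
  | add x y _ _ hx hy =>
    rw [mg_add]
    change ((magnus F x).2 k + (magnus F y).2 k).IsHomogeneous m
    exact hx.add hy
  | smul c x _ hx =>
    rw [mg_smul]
    change (c • (magnus F x).2 k).IsHomogeneous m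
    rw [← MvPolynomial.mem_homogeneousSubmodule] at hx ⊢
    exact Submodule.smul_mem _ c hx

/-- the functional `u ↦ ∑ t_k u_k` -/
noncomputable def chX (F : Type u) [Field F] :
    (ℕ →₀ MvPolynomial ℕ F) →ₗ[MvPolynomial ℕ F] MvPolynomial ℕ F :=
  Finsupp.linearCombination (MvPolynomial ℕ F) (fun k => (MvPolynomial.X k : MvPolynomial ℕ F))

theorem mono_rel {m : ℕ} {f : FreeLieAlgebra F ℕ} (h : IsMono F m f) :
    chX F (magnus F f).2 = tlin F (magnus F f).1 := by
  induction h with
  | gen i =>
    rw [magnus_of]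
    change chX F (Finsupp.single i 1) = tlin F (Finsupp.single i 1)
    rw [tlin_single]
    unfold chX
    rw [Finsupp.linearCombination_single, one_smul]
  | @br a b f g hf hg h1 h2 =>
    rw [magnus_br_snd, magnus_br_fst, map_zero, map_sub, map_smul, map_smul, h1, h2, smul_eq_mul,
      smul_eq_mul, mul_comm, sub_self]

/-- the relation `∑ t_k D_k f = 0` in degree at least two -/
theorem magnus_rel {m : ℕ} {f : FreeLieAlgebra F ℕ} (hf : f ∈ degEQ F (m + 2)) :
    ((magnus F f).2).sum (fun k p => MvPolynomial.X k * p) = 0 := by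
  have h0 := magnus_fst_of_degEQ hf
  have h1 : chX F (magnus F f).2 = tlin F (magnus F f).1 := by
    clear h0
    unfold degEQ at hf
    induction hf using Submodule.span_induction with
    | mem x hx => exact mono_rel hx
    | zero =>
      rw [mg_zero]
      change chX F 0 = tlin F 0
      rw [map_zero, map_zero]
    | add x y _ _ hx hy =>
      rw [mg_add]
      change chX F ((magnus F x).2 + (magnus F y).2) = tlin F ((magnus F x).1 + (magnus F y).1)
      rw [map_add, map_add, hx, hy]
    | smul c x _ hx =>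
      rw [mg_smul]
      change chX F (c • (magnus F x).2) = tlin F (c • (magnus F x).1)
      rw [LinearMap.map_smul_of_tower (chX F), map_smul (tlin F), hx]
  rw [h0, map_zero] at h1
  rw [← h1]
  unfold chX
  rw [Finsupp.linearCombination_apply]
  apply Finsupp.sum_congr
  intro k _
  rw [smul_eq_mul, mul_comm]

theorem magnus_one {f : FreeLieAlgebra F ℕ} (hf : f ∈ degEQ F 1) :
    f = ((magnus F f).1).sum (fun k c => c • FreeLieAlgebra.of F k) := by
  have h : f = Finsupp.linearCombination F (FreeLieAlgebra.of F) (magnus F f).1 := by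
    unfold degEQ at hf
    induction hf using Submodule.span_induction with
    | mem x hx =>
      obtain ⟨i, rfl⟩ := mono_one hx rfl
      rw [magnus_of]
      change _ = Finsupp.linearCombination F (FreeLieAlgebra.of F) (Finsupp.single i 1)
      rw [Finsupp.linearCombination_single, one_smul]
    | zero =>
      rw [mg_zero]
      change _ = Finsupp.linearCombination F (FreeLieAlgebra.of F) 0
      rw [map_zero]
    | add x y _ _ hx hy =>
      rw [mg_add]
      change _ = Finsupp.linearCombination F (FreeLieAlgebra.of F) ((magnus F x).1 + (magnus F y).1)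
      rw [map_add, ← hx, ← hy]
    | smul c x _ hx =>
      rw [mg_smul]
      change _ = Finsupp.linearCombination F (FreeLieAlgebra.of F) (c • (magnus F x).1)
      rw [map_smul, ← hx]
  exact h

theorem magnus_lnorm (n : ℕ) : magnus F (lnorm F (n + 1)) =
    (((0 : ℕ →₀ F), Finsupp.single 0 (MvPolynomial.X 1 * ∏ i ∈ Finset.Ico 2 (n + 2), MvPolynomial.X i)
      - Finsupp.single 1 (MvPolynomial.X 0 * ∏ i ∈ Finset.Ico 2 (n + 2), MvPolynomial.X i)) : WF F) := by
  induction n with
  | zero =>
    have h : lnorm F (0 + 1) = ⁅FreeLieAlgebra.of F 0, FreeLieAlgebra.of F 1⁆ := rfl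
    rw [h]
    apply Wr.ext
    · exact magnus_br_fst _ _
    · rw [magnus_br_snd, magnus_of, magnus_of]
      change tlin F (Finsupp.single 1 1) • Finsupp.single 0 (1 : MvPolynomial ℕ F) -
        tlin F (Finsupp.single 0 1) • Finsupp.single 1 (1 : MvPolynomial ℕ F) = _
      rw [tlin_single, tlin_single, Finsupp.smul_single, Finsupp.smul_single, smul_eq_mul,
        smul_eq_mul]
      simp
  | succ n ih =>
    have h : lnorm F (n + 1 + 1) = ⁅lnorm F (n + 1), FreeLieAlgebra.of F (n + 2)⁆ := rfl
    rw [h]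
    apply Wr.ext
    · exact magnus_br_fst _ _
    · rw [magnus_br_snd, magnus_of, ih]
      change tlin F (Finsupp.single (n + 2) 1) • (Finsupp.single 0 (MvPolynomial.X 1 *
        ∏ i ∈ Finset.Ico 2 (n + 2), MvPolynomial.X i) - Finsupp.single 1 (MvPolynomial.X 0 *
        ∏ i ∈ Finset.Ico 2 (n + 2), MvPolynomial.X i)) - tlin F 0 •
        Finsupp.single (n + 2) (1 : MvPolynomial ℕ F) = _
      rw [tlin_single, map_zero, zero_smul, sub_zero, smul_sub, Finsupp.smul_single,
        Finsupp.smul_single, smul_eq_mul, smul_eq_mul,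
        Finset.prod_Ico_succ_top (show 2 ≤ n + 2 by omega)]
      congr 2 <;> ring

end Pool.Agent.R672.DV
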