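import Mathlib

/-!
# Definitions for MP_b4a71d_al (distributive varieties of Lie algebras)
-/

namespace Pool.Agent.R672.DV

universe u

/-- Lie monomials (iterated brackets of variables) of degree exactly `n` in the free
Lie algebra on countably many variables. -/
inductive IsMono (F : Type u) [Field F] : ℕ → FreeLieAlgebra F ℕ → Prop
  | gen (i : ℕ) : IsMono F 1 (FreeLieAlgebra.of F i)
  | br {a b : ℕ} {f g : FreeLieAlgebra F ℕ} (hf : IsMono F a f) (hg : IsMono F b g) :
      IsMono F (a + b) ⁅f, g⁆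

/-- Elements of the free Lie algebra of degree at most `n`. -/
noncomputable def degLE (F : Type u) [Field F] (n : ℕ) : Submodule F (FreeLieAlgebra F ℕ) :=
  Submodule.span F {f | ∃ m, m ≤ n ∧ IsMono F m f}

/-- Homogeneous elements of degree `n` of the free Lie algebra. -/
noncomputable def degEQ (F : Type u) [Field F] (n : ℕ) : Submodule F (FreeLieAlgebra F ℕ) :=
  Submodule.span F {f | IsMono F n f}

/-- A Lie algebra over `F` (bundled). -/
structure LieAlg (F : Type u) [Field F] where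
  /-- the underlying type -/
  carrier : Type u
  [ring : LieRing carrier]
  [alg : LieAlgebra F carrier]

attribute [instance] LieAlg.ring LieAlg.alg

/-- `f` is an identity of `A`. -/
def Sat {F : Type u} [Field F] (A : LieAlg F) (f : FreeLieAlgebra F ℕ) : Prop :=
  ∀ y : ℕ → A.carrier, FreeLieAlgebra.lift F y f = 0

/-- The class of all Lie algebras satisfying every identity of `S`. -/
def Mod {F : Type u} [Field F] (S : Set (FreeLieAlgebra F ℕ)) : Set (LieAlg F) :=
  {A | ∀ f ∈ S, Sat A f}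

/-- `V` is a variety of Lie algebras over `F`. -/
def IsVariety {F : Type u} [Field F] (V : Set (LieAlg F)) : Prop :=
  ∃ S : Set (FreeLieAlgebra F ℕ), V = Mod S

/-- The join of two varieties: the smallest variety containing both. -/
def join {F : Type u} [Field F] (V W : Set (LieAlg F)) : Set (LieAlg F) :=
  ⋂₀ {U | IsVariety U ∧ V ⊆ U ∧ W ⊆ U}

/-- The lattice of subvarieties of `V` is distributive. -/
def IsDistributive {F : Type u} [Field F] (V : Set (LieAlg F)) : Prop :=
  ∀ X Y Z : Set (LieAlg F), IsVariety X → IsVariety Y → IsVariety Z →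
    X ⊆ V → Y ⊆ V → Z ⊆ V → X ∩ join Y Z = join (X ∩ Y) (X ∩ Z)

/-- `V` is defined by identities of degree at most `n`. -/
def DefinedInDegree {F : Type u} [Field F] (n : ℕ) (V : Set (LieAlg F)) : Prop :=
  ∃ S : Set (FreeLieAlgebra F ℕ), S ⊆ degLE F n ∧ V = Mod S

/-- The set of all identities of a class of Lie algebras. -/
def Id {F : Type u} [Field F] (V : Set (LieAlg F)) : Set (FreeLieAlgebra F ℕ) :=
  {f | ∀ A ∈ V, Sat A f}

/-! ### Wreath type algebras -/

section Wr

variable {F : Type*} [Field F] {𝔞 R M : Type*} [AddCommGroup 𝔞] [Module F 𝔞]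
  [CommRing R] [Algebra F R] [AddCommGroup M] [Module R M] [Module F M] [IsScalarTower F R M]

/-- The Lie algebra `𝔞 ⋉ M`, where `𝔞` is abelian and acts on the abelian ideal `M`
through the linear map `ℓ : 𝔞 → R`. The bracket is `[(a,u),(b,v)] = (0, ℓ(b) u - ℓ(a) v)`. -/
@[nolint unusedArguments]
def Wr (_ℓ : 𝔞 →ₗ[F] R) (M : Type*) : Type _ := 𝔞 × M

variable (ℓ : 𝔞 →ₗ[F] R)

instance : AddCommGroup (Wr ℓ M) := inferInstanceAs (AddCommGroup (𝔞 × M))

instance : Module F (Wr ℓ M) := inferInstanceAs (Module F (𝔞 × M))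

instance : Bracket (Wr ℓ M) (Wr ℓ M) := ⟨fun x y => ((0 : 𝔞), ℓ y.1 • x.2 - ℓ x.1 • y.2)⟩

@[simp] theorem Wr.bracket_fst (x y : Wr ℓ M) : (⁅x, y⁆ : Wr ℓ M).1 = 0 := rfl

@[simp] theorem Wr.bracket_snd (x y : Wr ℓ M) :
    (⁅x, y⁆ : Wr ℓ M).2 = ℓ y.1 • x.2 - ℓ x.1 • y.2 := rfl

@[simp] theorem Wr.add_fst (x y : Wr ℓ M) : (x + y).1 = x.1 + y.1 := rfl
@[simp] theorem Wr.add_snd (x y : Wr ℓ M) : (x + y).2 = x.2 + y.2 := rfl
@[simp] theorem Wr.zero_fst : (0 : Wr ℓ M).1 = 0 := rfl
@[simp] theorem Wr.zero_snd : (0 : Wr ℓ M).2 = 0 := rfl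
@[simp] theorem Wr.smul_fst (c : F) (x : Wr ℓ M) : (c • x).1 = c • x.1 := rfl
@[simp] theorem Wr.smul_snd (c : F) (x : Wr ℓ M) : (c • x).2 = c • x.2 := rfl

theorem Wr.ext {x y : Wr ℓ M} (h1 : x.1 = y.1) (h2 : x.2 = y.2) : x = y := Prod.ext h1 h2

instance : LieRing (Wr ℓ M) where
  add_lie x y z := by
    apply Wr.ext
    · simp
    · simp only [Wr.bracket_snd, Wr.add_fst, Wr.add_snd, map_add, smul_add, add_smul]
      abel
  lie_add x y z := by
    apply Wr.ext
    · simp
    · simp only [Wr.bracket_snd, Wr.add_fst, Wr.add_snd, map_add, smul_add, add_smul]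
      abel
  lie_self x := by
    apply Wr.ext
    · simp
    · simp
  leibniz_lie x y z := by
    apply Wr.ext
    · simp
    · simp only [Wr.bracket_snd, Wr.add_snd, Wr.bracket_fst, map_zero, zero_smul,
        smul_sub, smul_smul, mul_comm]
      abel

instance : LieAlgebra F (Wr ℓ M) where
  lie_smul c x y := by
    apply Wr.ext
    · simp
    · simp only [Wr.bracket_snd, Wr.smul_fst, Wr.smul_snd, map_smul, smul_sub, smul_assoc]
      rw [smul_algebra_smul_comm c (ℓ x.1) y.2]

end Wr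

/-- The linear map `(ℕ →₀ F) → F[t₀, t₁, …]` sending the basis vector `e_i` to `t_i`. -/
noncomputable def tlin (F : Type u) [Field F] : (ℕ →₀ F) →ₗ[F] MvPolynomial ℕ F :=
  Finsupp.linearCombination F (fun i => (MvPolynomial.X i : MvPolynomial ℕ F))

/-- The free wreath type algebra `F^∞ ⋉ F[t]^∞`. -/
abbrev WF (F : Type u) [Field F] := Wr (tlin F) (ℕ →₀ MvPolynomial ℕ F)

/-- The Magnus embedding `x_i ↦ (e_i, ε_i)`. -/
noncomputable def magnus (F : Type u) [Field F] : FreeLieAlgebra F ℕ →ₗ⁅F⁆ WF F :=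
  FreeLieAlgebra.lift F (fun i => ((Finsupp.single i 1, Finsupp.single i 1) : WF F))

/-- Left normed commutator `[x₀, x₁, …, x_n]` of degree `n+1`. -/
noncomputable def lnorm (F : Type u) [Field F] : ℕ → FreeLieAlgebra F ℕ
  | 0 => FreeLieAlgebra.of F 0
  | n + 1 => ⁅lnorm F n, FreeLieAlgebra.of F (n + 1)⁆

/-- The defining identities of the variety `V n`: those of the free wreath type algebra
(equivalently, consequences of the metabelian law) and nilpotency of class at most `n`. -/
noncomputable def basis (F : Type u) [Field F] (n : ℕ) : Set (FreeLieAlgebra F ℕ) :=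
  {f | Sat ⟨WF F⟩ f} ∪ {lnorm F n}

end Pool.Agent.R672.DV
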