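import Pool.Agent.R672.DV.KeyAux

/-!
# The key lemma: every identity of degree `d + 1` which does not hold in the free wreath type
algebra implies (modulo the identities of that algebra) the left normed commutator of degree `d + 1`
-/

set_option autoImplicit false

namespace Pool.Agent.R672.DV

universe u

open Finset MvPolynomial

variable {F : Type u} [Field F]

/-! ### making the coefficient of `t₁ ⋯ t_d` of `D₀` nonzero -/

theorem exists_eval_ne_zero [CharZero F] {P : MvPolynomial ℕ F} (hP : P ≠ 0) :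
    ∃ a : ℕ → F, eval a P ≠ 0 := by
  by_contra h
  push Not at h
  exact hP (MvPolynomial.funext (fun x => by rw [h x, map_zero]))

theorem aeval_mul_T {P : MvPolynomial ℕ F} {d : ℕ} (hP : P.IsHomogeneous d) (a : ℕ → F)
    (T : MvPolynomial ℕ F) :
    aeval (fun k => C (a k) * T) P = C (eval a P) * T ^ d := by
  rw [aeval_def, eval₂_eq, eval_eq, map_sum, Finset.sum_mul]
  refine Finset.sum_congr rfl (fun m hm => ?_)
  have hd : ∑ i ∈ m.support, m i = d := by
    by_contra h
    exact (mem_support_iff.1 hm) (hP.coeff_eq_zero h)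
  simp_rw [mul_pow]
  rw [Finset.prod_mul_distrib, Finset.prod_pow_eq_pow_sum, hd, map_mul, map_prod, algebraMap_eq,
    mul_assoc]
  simp_rw [map_pow]

/-- the exponent of `t₁ ⋯ t_d` -/
noncomputable def m1 (d : ℕ) : ℕ →₀ ℕ := ∑ j ∈ Icc 1 d, Finsupp.single j 1

theorem m1_apply (d j : ℕ) : m1 d j = if j ∈ Icc 1 d then 1 else 0 := by
  unfold m1
  rw [Finsupp.finsetSum_apply]
  simp only [Finsupp.single_apply]
  rw [Finset.sum_ite_eq']

theorem m1_sum (d : ℕ) : (m1 d).sum (fun _ m => m) = d := by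
  unfold m1
  rw [← Finsupp.sum_finsetSum_index (fun _ => rfl) (fun _ _ _ => rfl)]
  simp

theorem coeff_T_pow [CharZero F] (d : ℕ) :
    coeff (m1 d) ((tlin F (∑ j ∈ Icc 1 d, Finsupp.single j 1)) ^ d) ≠ 0 := by
  unfold tlin
  rw [coeff_linearCombination_X_pow, if_pos (m1_sum d)]
  apply mul_ne_zero
  · rw [Nat.cast_ne_zero]
    unfold Finsupp.multinomial
    exact Nat.pos_iff_ne_zero.1 (Nat.multinomial_pos _ _)
  · unfold Finsupp.prod
    rw [Finset.prod_ne_zero_iff]
    intro j hj
    have hj1 : j ∈ Icc 1 d := by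
      by_contra h
      rw [Finsupp.mem_support_iff, m1_apply, if_neg h] at hj
      exact hj rfl
    apply pow_ne_zero
    rw [Finsupp.finsetSum_apply]
    simp only [Finsupp.single_apply]
    rw [Finset.sum_ite_eq', if_pos hj1]
    exact one_ne_zero

theorem exists_start [CharZero F] {n : ℕ} {f : FreeLieAlgebra F ℕ} (hf : f ∈ degEQ F (n + 2))
    (h0 : magnus F f ≠ 0) : ∃ s : ℕ → FreeLieAlgebra F ℕ, (∀ i, s i ∈ degEQ F 1) ∧
      coeff (m1 (n + 1)) ((magnus F (FreeLieAlgebra.lift F s f)).2 0) ≠ 0 := by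
  have hfst := magnus_fst_of_degEQ hf
  have hsnd : (magnus F f).2 ≠ 0 := fun h => h0 (Wr.ext _ hfst h)
  obtain ⟨i, hi⟩ : ∃ i, (magnus F f).2 i ≠ 0 := by
    by_contra h
    push Not at h
    exact hsnd (Finsupp.ext h)
  have hhom := magnus_snd_of_degEQ (m := n + 1) hf i
  obtain ⟨a, ha⟩ := exists_eval_ne_zero hi
  set P := (magnus F f).2 i with hP
  let e : ℕ →₀ F := ∑ j ∈ Icc 1 (n + 1), Finsupp.single j 1
  let E : FreeLieAlgebra F ℕ := ∑ j ∈ Icc 1 (n + 1), FreeLieAlgebra.of F j
  let s : ℕ → FreeLieAlgebra F ℕ := fun k =>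
    (if k = i then FreeLieAlgebra.of F 0 else 0) + a k • E
  have hE1 : (magnus F E).1 = e := by
    have h1 : magnus F E = ∑ j ∈ Icc 1 (n + 1), magnus F (FreeLieAlgebra.of F j) := map_sum _ _ _
    have h2 : ∀ S : Finset ℕ, (∑ j ∈ S, magnus F (FreeLieAlgebra.of F j)).1 =
        ∑ j ∈ S, Finsupp.single j 1 := by
      intro S
      induction S using Finset.cons_induction with
      | empty => rfl
      | cons b S hb ih =>
        rw [Finset.sum_cons, Finset.sum_cons, Wr.add_fst, ih, magnus_of_fst]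
    rw [h1, h2]
  have hE2 : (magnus F E).2 0 = 0 := by
    have h1 : magnus F E = ∑ j ∈ Icc 1 (n + 1), magnus F (FreeLieAlgebra.of F j) := map_sum _ _ _
    have h2 : ∀ S : Finset ℕ, 0 ∉ S → (∑ j ∈ S, magnus F (FreeLieAlgebra.of F j)).2 0 = 0 := by
      intro S
      induction S using Finset.cons_induction with
      | empty => intro _; rfl
      | cons b S hb ih =>
        intro h
        rw [Finset.mem_cons, not_or] at h
        rw [Finset.sum_cons, Wr.add_snd, Finsupp.add_apply, ih h.2, magnus_of_snd,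
          Finsupp.single_apply, if_neg (Ne.symm h.1), add_zero]
    rw [h1]
    exact h2 _ (by simp)
  have hs1 : ∀ k, (magnus F (s k)).1 = (if k = i then Finsupp.single 0 1 else 0) + a k • e := by
    intro k
    show (magnus F ((if k = i then FreeLieAlgebra.of F 0 else 0) + a k • E)).1 = _
    rw [map_add, map_smul, Wr.add_fst, Wr.smul_fst, hE1]
    split_ifs
    · rw [magnus_of_fst]
    · rw [map_zero]; rfl
  have hs2 : ∀ k, (magnus F (s k)).2 0 = if k = i then 1 else 0 := by
    intro k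
    show (magnus F ((if k = i then FreeLieAlgebra.of F 0 else 0) + a k • E)).2 0 = _
    rw [map_add, map_smul, Wr.add_snd, Wr.smul_snd, Finsupp.add_apply, Finsupp.smul_apply, hE2,
      smul_zero, add_zero]
    split_ifs
    · rw [magnus_of_snd, Finsupp.single_eq_same]
    · have hz : magnus F (0 : FreeLieAlgebra F ℕ) = 0 := map_zero _
      rw [hz]; rfl
  refine ⟨s, fun k => ?_, ?_⟩
  · apply Submodule.add_mem
    · split_ifs
      · exact of_mem_degEQ 0
      · exact Submodule.zero_mem _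
    · exact Submodule.smul_mem _ _ (Submodule.sum_mem _ (fun j _ => of_mem_degEQ j))
  · have h1 : (magnus F (FreeLieAlgebra.lift F s f)).2 0 =
        aeval (fun l => tlin F (magnus F (s l)).1) P := by
      rw [magnus_lift_snd]
      refine (Finset.sum_eq_single i ?_ ?_).trans ?_
      · intro b _ hb
        dsimp only
        rw [hs2, if_neg hb, mul_zero]
      · intro h
        dsimp only
        rw [Finsupp.notMem_support_iff.1 h, map_zero, zero_mul]
      · dsimp only
        rw [hs2, if_pos rfl, mul_one]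
    rw [h1]
    have h2 : coeff (m1 (n + 1)) (aeval (fun l => if l = 0 then (0 : MvPolynomial ℕ F) else X l)
        (aeval (fun l => tlin F (magnus F (s l)).1) P)) =
        coeff (m1 (n + 1)) (aeval (fun l => tlin F (magnus F (s l)).1) P) := by
      rw [coeff_zero_subst, if_pos]
      rw [m1_apply, if_neg (by simp)]
    rw [← h2]
    have h3 : aeval (fun l => if l = 0 then (0 : MvPolynomial ℕ F) else X l)
        (aeval (fun l => tlin F (magnus F (s l)).1) P) = aeval (fun k => C (a k) * tlin F e) P := by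
      have h4 : (aeval (fun l => if l = 0 then (0 : MvPolynomial ℕ F) else X l) :
          MvPolynomial ℕ F →ₐ[F] MvPolynomial ℕ F).comp
          (aeval (fun l => tlin F (magnus F (s l)).1)) = aeval (fun k => C (a k) * tlin F e) := by
        apply MvPolynomial.algHom_ext
        intro k
        rw [AlgHom.comp_apply, aeval_X, aeval_X, hs1, map_add, map_add, map_smul, map_smul,
          smul_eq_C_mul]
        have h5 : aeval (fun l => if l = 0 then (0 : MvPolynomial ℕ F) else X l) (tlin F e) =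
            tlin F e := by
          show aeval (fun l => if l = 0 then (0 : MvPolynomial ℕ F) else X l)
            (tlin F (∑ j ∈ Icc 1 (n + 1), Finsupp.single j 1)) =
              tlin F (∑ j ∈ Icc 1 (n + 1), Finsupp.single j 1)
          rw [map_sum, map_sum]
          refine Finset.sum_congr rfl (fun j hj => ?_)
          rw [tlin_single, aeval_X, if_neg]
          intro h
          rw [h] at hj
          simp at hj
        rw [h5]
        split_ifs
        · rw [tlin_single, aeval_X, if_pos rfl, zero_add]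
        · rw [map_zero, map_zero, zero_add]
      rw [← h4]; rfl
    rw [h3, aeval_mul_T hhom, coeff_C_mul]
    exact mul_ne_zero ha (coeff_T_pow _)

/-! ### multilinearization -/

theorem exists_multilinear_aux {A : LieAlg F} {n : ℕ} {g : FreeLieAlgebra F ℕ}
    (hg : g ∈ degEQ F (n + 2)) (hA : Sat A g) (J : Finset ℕ) (hJ : J ⊆ range (n + 2)) :
    ∃ G ∈ degEQ F (n + 2), Sat A G ∧
      coeff (m1 (n + 1)) ((magnus F G).2 0) = coeff (m1 (n + 1)) ((magnus F g).2 0) ∧
      ∀ j ∈ J, ∀ k, k ≠ j → ∀ m : ℕ →₀ ℕ, m j = 0 → coeff m ((magnus F G).2 k) = 0 := by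
  induction J using Finset.cons_induction with
  | empty => exact ⟨g, hg, hA, rfl, by simp⟩
  | cons j J hj ih =>
    obtain ⟨G, hG1, hG2, hG3, hG4⟩ := ih (fun x hx => hJ (Finset.mem_cons_of_mem hx))
    have hj1 : j ∈ range (n + 2) := hJ (Finset.mem_cons_self _ _)
    refine ⟨G - kill F j G, Submodule.sub_mem _ hG1 (kill_mem hG1), hG2.sub (hG2.subst _), ?_, ?_⟩
    · rw [coeff_sub_kill, if_neg, hG3]
      rintro ⟨h1, h2⟩
      rw [m1_apply] at h2
      rw [mem_range] at hj1
      rw [if_pos (by rw [mem_Icc]; omega)] at h2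
      exact one_ne_zero h2
    · intro i hi k hk m hm
      rw [coeff_sub_kill]
      split_ifs with h
      · rfl
      · rcases Finset.mem_cons.1 hi with rfl | hi
        · exact absurd ⟨hk, hm⟩ h
        · exact hG4 i hi k hk m hm

/-- multilinear elements of degree `d + 1` in `x₀, …, x_d`, with coefficients `v` -/
def ML (d : ℕ) (v : ℕ → F) (g : FreeLieAlgebra F ℕ) : Prop :=
  (magnus F g).1 = 0 ∧ ∀ k, (magnus F g).2 k =
    if k ∈ range (d + 1) then C (v k) * ∏ l ∈ (range (d + 1)).erase k, X l else 0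

theorem ML.sub {d : ℕ} {v w : ℕ → F} {f g : FreeLieAlgebra F ℕ} (hf : ML d v f) (hg : ML d w g) :
    ML d (fun k => v k - w k) (f - g) := by
  refine ⟨?_, fun k => ?_⟩
  · have : (magnus F (f - g)).1 = (magnus F f).1 - (magnus F g).1 := by rw [map_sub]; rfl
    rw [this, hf.1, hg.1, sub_zero]
  · have : (magnus F (f - g)).2 k = (magnus F f).2 k - (magnus F g).2 k := by rw [map_sub]; rfl
    rw [this, hf.2 k, hg.2 k]
    split_ifs
    · rw [map_sub, sub_mul]
    · rw [sub_zero]

theorem ML.smul {d : ℕ} {v : ℕ → F} {f : FreeLieAlgebra F ℕ} (c : F) (hf : ML d v f) :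
    ML d (fun k => c * v k) (c • f) := by
  refine ⟨?_, fun k => ?_⟩
  · have : (magnus F (c • f)).1 = c • (magnus F f).1 := by rw [map_smul]; rfl
    rw [this, hf.1, smul_zero]
  · have : (magnus F (c • f)).2 k = c • (magnus F f).2 k := by rw [map_smul]; rfl
    rw [this, hf.2 k]
    split_ifs
    · rw [map_mul, smul_eq_C_mul, mul_assoc]
    · rw [smul_zero]

theorem ML.magnus_eq_zero {d : ℕ} {v : ℕ → F} {f : FreeLieAlgebra F ℕ} (hf : ML d v f)
    (hv : ∀ k ∈ range (d + 1), v k = 0) : magnus F f = 0 := by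
  refine Wr.ext _ hf.1 (Finsupp.ext (fun k => ?_))
  rw [hf.2 k]
  split_ifs with h
  · rw [hv k h, map_zero, zero_mul]; rfl
  · rfl

theorem ML.perm {d : ℕ} {v : ℕ → F} {f : FreeLieAlgebra F ℕ} (hf : ML d v f)
    (h1 : f ∈ degEQ F (d + 1)) (hd : 1 ≤ d) (σ : Equiv.Perm ℕ)
    (hσ : ∀ k, σ k ∈ range (d + 1) ↔ k ∈ range (d + 1)) :
    ML d (fun k => v (σ.symm k))
      (FreeLieAlgebra.lift F (fun i => FreeLieAlgebra.of F (σ i)) f) := by
  obtain ⟨e, rfl⟩ : ∃ e, d = e + 1 := ⟨d - 1, by omega⟩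
  refine ⟨magnus_fst_of_degEQ (subst_degEQ _ (fun i => of_mem_degEQ _) h1), fun k => ?_⟩
  rw [magnus_perm_snd, hf.2]
  have h2 : σ.symm k ∈ range (e + 1 + 1) ↔ k ∈ range (e + 1 + 1) := by
    rw [← hσ, Equiv.apply_symm_apply]
  by_cases hk : k ∈ range (e + 1 + 1)
  · rw [if_pos (h2.2 hk), if_pos hk, map_mul, rename_C, map_prod]
    congr 1
    simp only [rename_X]
    refine Finset.prod_equiv σ ?_ (fun _ _ => rfl)
    intro l
    rw [Finset.mem_erase, Finset.mem_erase, hσ, Ne, Ne, Equiv.eq_symm_apply]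
  · rw [if_neg (fun h => hk (h2.1 h)), if_neg hk, map_zero]

theorem exists_multilinear {A : LieAlg F} {n : ℕ} {g : FreeLieAlgebra F ℕ}
    (hg : g ∈ degEQ F (n + 2)) (hA : Sat A g)
    (h0 : coeff (m1 (n + 1)) ((magnus F g).2 0) ≠ 0) :
    ∃ G ∈ degEQ F (n + 2), Sat A G ∧ ∃ v : ℕ → F, v 0 ≠ 0 ∧ ML (n + 1) v G := by
  obtain ⟨G, hG1, hG2, hG3, hG4⟩ := exists_multilinear_aux hg hA (range (n + 2)) subset_rfl
  have hdeg : ∀ k, ∀ m : ℕ →₀ ℕ, coeff m ((magnus F G).2 k) ≠ 0 → m.degree = n + 1 := by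
    intro k m hm
    by_contra h
    exact hm ((magnus_snd_of_degEQ (m := n + 1) hG1 k).coeff_eq_zero h)
  have hone : ∀ k, ∀ m : ℕ →₀ ℕ, coeff m ((magnus F G).2 k) ≠ 0 →
      ∀ j ∈ (range (n + 2)).erase k, 1 ≤ m j := by
    intro k m hm j hj
    rw [Finset.mem_erase] at hj
    by_contra h
    exact hm (hG4 j hj.2 k (Ne.symm hj.1) m (by omega))
  have hle : ∀ k, ∀ m : ℕ →₀ ℕ, coeff m ((magnus F G).2 k) ≠ 0 →
      ∃ r : ℕ →₀ ℕ, m = (∑ l ∈ (range (n + 2)).erase k, Finsupp.single l 1) + r ∧
        n + 1 = ((range (n + 2)).erase k).card + r.degree := by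
    intro k m hm
    have h1 : (∑ l ∈ (range (n + 2)).erase k, Finsupp.single l 1) ≤ m := by
      intro j
      rw [Finsupp.finsetSum_apply]
      simp only [Finsupp.single_apply]
      rw [Finset.sum_ite_eq']
      split_ifs with h
      · exact hone k m hm j h
      · exact Nat.zero_le _
    obtain ⟨r, rfl⟩ := exists_add_of_le h1
    refine ⟨r, rfl, ?_⟩
    have h2 := hdeg k _ hm
    rw [map_add, map_sum] at h2
    simp only [Finsupp.degree_single, Finset.sum_const, smul_eq_mul, mul_one] at h2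
    exact h2.symm
  have hmono : ∀ (S : Finset ℕ), (∏ l ∈ S, (X l : MvPolynomial ℕ F)) =
      monomial (∑ l ∈ S, Finsupp.single l 1) 1 := by
    intro S
    rw [monomial_sum_one]
    rfl
  refine ⟨G, hG1, hG2, fun k => coeff (∑ l ∈ (range (n + 2)).erase k, Finsupp.single l 1)
    ((magnus F G).2 k), ?_, ?_⟩
  · have h1 : (∑ l ∈ (range (n + 2)).erase 0, Finsupp.single l 1) = m1 (n + 1) := by
      unfold m1
      refine Finset.sum_congr ?_ (fun _ _ => rfl)
      ext x
      rw [Finset.mem_erase, Finset.mem_range, Finset.mem_Icc]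
      omega
    dsimp only
    rw [h1, hG3]
    exact h0
  · refine ⟨magnus_fst_of_degEQ hG1, fun k => ?_⟩
    split_ifs with hk
    · rw [hmono]
      ext m
      rw [coeff_C_mul, coeff_monomial]
      split_ifs with h
      · subst h
        exact (mul_one _).symm
      · rw [mul_zero]
        by_contra hm
        obtain ⟨r, hr1, hr2⟩ := hle k m hm
        rw [Finset.card_erase_of_mem hk, Finset.card_range] at hr2
        have hr3 : r.degree = 0 := by omega
        rw [Finsupp.degree_eq_zero_iff] at hr3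
        rw [hr3, add_zero] at hr1
        exact h hr1.symm
    · ext m
      rw [coeff_zero]
      by_contra hm
      obtain ⟨r, hr1, hr2⟩ := hle k m hm
      rw [Finset.erase_eq_of_notMem hk, Finset.card_range] at hr2
      omega

/-! ### the transposition trick -/

theorem ML.sum_eq_zero {n : ℕ} {v : ℕ → F} {G : FreeLieAlgebra F ℕ} (hG : G ∈ degEQ F (n + 2))
    (h : ML (n + 1) v G) : ∑ k ∈ range (n + 2), v k = 0 := by
  have h1 := magnus_rel hG
  have h2 : ((magnus F G).2).sum (fun k p => MvPolynomial.X k * p) =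
      ∑ k ∈ range (n + 2), MvPolynomial.X k * (magnus F G).2 k := by
    refine Finset.sum_subset ?_ ?_
    · intro k hk
      by_contra h'
      exact (Finsupp.mem_support_iff.1 hk) (by rw [h.2 k, if_neg h'])
    · intro k _ hk
      dsimp only
      rw [Finsupp.notMem_support_iff.1 hk, mul_zero]
  rw [h2] at h1
  have h3 : ∑ k ∈ range (n + 2), (MvPolynomial.X k * (magnus F G).2 k : MvPolynomial ℕ F) =
      C (∑ k ∈ range (n + 2), v k) * ∏ l ∈ range (n + 2), X l := by
    rw [map_sum, Finset.sum_mul]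
    refine Finset.sum_congr rfl (fun k hk => ?_)
    rw [h.2 k, if_pos hk, ← Finset.mul_prod_erase _ _ hk]
    ring
  rw [h3, mul_eq_zero] at h1
  rcases h1 with h1 | h1
  · rwa [← C_0, C_inj] at h1
  · exfalso
    rw [Finset.prod_eq_zero_iff] at h1
    obtain ⟨k, _, hk⟩ := h1
    exact X_ne_zero k hk

theorem ML_lnorm (n : ℕ) : ML (n + 1) (fun k => if k = 0 then (1 : F) else if k = 1 then -1 else 0)
    (lnorm F (n + 1)) := by
  have e0 : (range (n + 2)).erase 0 = insert 1 (Ico 2 (n + 2)) := by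
    ext x; rw [Finset.mem_erase, Finset.mem_range, Finset.mem_insert, Finset.mem_Ico]; omega
  have e1 : (range (n + 2)).erase 1 = insert 0 (Ico 2 (n + 2)) := by
    ext x; rw [Finset.mem_erase, Finset.mem_range, Finset.mem_insert, Finset.mem_Ico]; omega
  have hm := magnus_lnorm (F := F) n
  refine ⟨congrArg Prod.fst hm, fun k => ?_⟩
  have h2 : (magnus F (lnorm F (n + 1))).2 k =
      (Finsupp.single 0 (MvPolynomial.X 1 * ∏ i ∈ Finset.Ico 2 (n + 2), MvPolynomial.X i)
      - Finsupp.single 1 (MvPolynomial.X 0 * ∏ i ∈ Finset.Ico 2 (n + 2), MvPolynomial.X i) :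
        ℕ →₀ MvPolynomial ℕ F) k :=
    congrArg (fun z : WF F => z.2 k) hm
  rw [h2, Finsupp.sub_apply]
  beta_reduce
  by_cases h0 : k = 0
  · subst h0
    rw [Finsupp.single_eq_same, Finsupp.single_apply, if_neg (by omega), sub_zero, if_pos (by simp),
      if_pos rfl, C_1, one_mul, e0, Finset.prod_insert (by simp)]
  · by_cases h1 : k = 1
    · subst h1
      rw [Finsupp.single_eq_same, Finsupp.single_apply, if_neg (by omega), zero_sub,
        if_pos (by simp), if_neg one_ne_zero, if_pos rfl, e1, Finset.prod_insert (by simp),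
        C_neg, C_1, neg_one_mul]
    · rw [Finsupp.single_apply, Finsupp.single_apply, if_neg (Ne.symm h0), if_neg (Ne.symm h1),
        if_neg h0, if_neg h1, C_0, zero_mul, ite_self, sub_zero]

theorem key_succ [CharZero F] {n : ℕ} {f : FreeLieAlgebra F ℕ} (hf : f ∈ degEQ F (n + 2))
    (h0 : magnus F f ≠ 0) (A : LieAlg F)
    (hA : ∀ g, Sat (⟨WF F⟩ : LieAlg F) g → Sat A g) (h : Sat A f) : Sat A (lnorm F (n + 1)) := by
  obtain ⟨s, hs1, hs2⟩ := exists_start hf h0
  obtain ⟨G, hG1, hG2, v, hv, hG3⟩ := exists_multilinear (subst_degEQ s hs1 hf) (h.subst s) hs2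
  have hsum := hG3.sum_eq_zero hG1
  obtain ⟨j, hj, hj0, hjv⟩ : ∃ j ∈ range (n + 2), j ≠ 0 ∧ v j ≠ v 0 := by
    by_contra hcon
    push Not at hcon
    have : ∑ k ∈ range (n + 2), v k = ∑ k ∈ range (n + 2), v 0 := by
      refine Finset.sum_congr rfl (fun k hk => ?_)
      by_cases hk0 : k = 0
      · rw [hk0]
      · exact hcon k hk hk0
    rw [this, Finset.sum_const, Finset.card_range, nsmul_eq_mul, mul_eq_zero] at hsum
    rcases hsum with h1 | h1
    · exact (Nat.cast_ne_zero.2 (by omega)) h1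
    · exact hv h1
  have hj' : j < n + 2 := mem_range.1 hj
  have hsw : ∀ a b : ℕ, a < n + 2 → b < n + 2 → ∀ k,
      Equiv.swap a b k ∈ range (n + 1 + 1) ↔ k ∈ range (n + 1 + 1) := by
    intro a b ha hb k
    rw [mem_range, mem_range, Equiv.swap_apply_def]
    split_ifs with h1 h2
    · rw [h1]; constructor <;> intro _ <;> omega
    · rw [h2]; constructor <;> intro _ <;> omega
    · rfl
  have g1 := hG3.perm hG1 (by omega) (Equiv.swap 1 j) (hsw 1 j (by omega) hj')
  have hG1' : FreeLieAlgebra.lift F (fun i => FreeLieAlgebra.of F (Equiv.swap 1 j i)) G ∈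
      degEQ F (n + 2) := subst_degEQ _ (fun i => of_mem_degEQ _) hG1
  set G1 := FreeLieAlgebra.lift F (fun i => FreeLieAlgebra.of F (Equiv.swap 1 j i)) G with hG1def
  have sG1 : Sat A G1 := hG2.subst _
  have g2 := g1.perm hG1' (by omega) (Equiv.swap 0 1) (hsw 0 1 (by omega) (by omega))
  set G2 := FreeLieAlgebra.lift F (fun i => FreeLieAlgebra.of F (Equiv.swap 0 1 i)) G1 with hG2def
  have sG2 : Sat A G2 := sG1.subst _
  have g3 := (g1.sub g2).sub ((ML_lnorm (F := F) n).smul (v 0 - v j))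
  have hz := g3.magnus_eq_zero (by
    intro k hk
    simp only [Equiv.symm_swap]
    by_cases hk0 : k = 0
    · subst hk0
      rw [Equiv.swap_apply_left, Equiv.swap_apply_left, if_pos rfl, mul_one,
        Equiv.swap_apply_of_ne_of_ne (by omega) (Ne.symm hj0)]
      ring
    · by_cases hk1 : k = 1
      · subst hk1
        rw [Equiv.swap_apply_left, Equiv.swap_apply_right, if_neg one_ne_zero, if_pos rfl,
          Equiv.swap_apply_of_ne_of_ne (by omega) (Ne.symm hj0)]
        ring
      · rw [Equiv.swap_apply_of_ne_of_ne (a := 0) (b := 1) hk0 hk1, if_neg hk0, if_neg hk1]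
        ring)
  have hs := hA _ (sat_WF_iff.2 hz)
  have hs' : Sat A ((v 0 - v j) • lnorm F (n + 1)) := by
    have := (sG1.sub sG2).sub hs
    rwa [sub_sub_cancel] at this
  have hne : v 0 - v j ≠ 0 := sub_ne_zero.2 (Ne.symm hjv)
  have := hs'.smul (v 0 - v j)⁻¹
  rwa [smul_smul, inv_mul_cancel₀ hne, one_smul] at this

theorem key_zero {f : FreeLieAlgebra F ℕ} (hf : f ∈ degEQ F 1)
    (h0 : magnus F f ≠ 0) (A : LieAlg F) (h : Sat A f) : Sat A (lnorm F 0) := by
  intro y
  show FreeLieAlgebra.lift F y (FreeLieAlgebra.of F 0) = 0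
  rw [FreeLieAlgebra.lift_of_apply]
  have h1 := magnus_one hf
  set c := (magnus F f).1 with hc
  obtain ⟨k, hk⟩ : ∃ k, c k ≠ 0 := by
    by_contra hcon
    push Not at hcon
    have : c = 0 := Finsupp.ext hcon
    rw [this, Finsupp.sum_zero_index] at h1
    exact h0 (by rw [h1, map_zero])
  have h2 := h (fun i => if i = k then y 0 else 0)
  rw [h1, Finsupp.sum, map_sum, Finset.sum_eq_single k] at h2
  · rw [map_smul, FreeLieAlgebra.lift_of_apply, if_pos rfl, smul_eq_zero] at h2
    exact h2.resolve_left hk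
  · intro b _ hb
    rw [map_smul, FreeLieAlgebra.lift_of_apply, if_neg hb, smul_zero]
  · intro h3
    rw [Finsupp.notMem_support_iff.1 h3, zero_smul, map_zero]

/-- **Key lemma.** -/
theorem key [CharZero F] {d : ℕ} {f : FreeLieAlgebra F ℕ} (hf : f ∈ degEQ F (d + 1))
    (h0 : magnus F f ≠ 0) (A : LieAlg F)
    (hA : ∀ g, Sat (⟨WF F⟩ : LieAlg F) g → Sat A g) (h : Sat A f) : Sat A (lnorm F d) := by
  cases d with
  | zero => exact key_zero hf h0 A h
  | succ n => exact key_succ hf h0 A hA h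

end Pool.Agent.R672.DV
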