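import Pool.Agent.R672.DV.ModelCore
import Pool.Agent.R672.DV.Chain

/-!
# The model (MP_b4a71d_al)
-/

set_option autoImplicit false

namespace Pool.Agent.R672.DV

universe u

variable {F : Type u} [Field F]

theorem exists_model (n : ℕ) : ∃ A : LieAlg F, A ∈ Mod (basis F (n + 1)) ∧ ¬ Sat A (lnorm F n) :=
  exists_model_of n (fun _ hf => sat_WF_iff.1 hf) (fun _ hf => sat_wr _ hf)

end Pool.Agent.R672.DV
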