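import Pool.Agent.R672.DV.Defs

/-!
# Nilp (MP_b4a71d_al): a left normed commutator law kills all higher monomials
-/

namespace Pool.Agent.R672.DV

universe u

variable {F : Type u} [Field F]

namespace Nilp

/-- left normed monomials -/
inductive LNM (F : Type u) [Field F] : ℕ → FreeLieAlgebra F ℕ → Prop
  | gen (i : ℕ) : LNM F 1 (FreeLieAlgebra.of F i)
  | step {m : ℕ} {f : FreeLieAlgebra F ℕ} (h : LNM F m f) (i : ℕ) :
      LNM F (m + 1) ⁅f, FreeLieAlgebra.of F i⁆

/-- the span of the left normed monomials of degree `m` -/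
noncomputable def T (F : Type u) [Field F] (m : ℕ) : Submodule F (FreeLieAlgebra F ℕ) :=
  Submodule.span F {f | LNM F m f}

theorem T_step {a : ℕ} {f : FreeLieAlgebra F ℕ} (hf : f ∈ T F a) (i : ℕ) :
    ⁅f, FreeLieAlgebra.of F i⁆ ∈ T F (a + 1) := by
  refine Submodule.span_induction (p := fun f _ => ⁅f, FreeLieAlgebra.of F i⁆ ∈ T F (a + 1))
    ?_ ?_ ?_ ?_ hf
  · intro x hx
    exact Submodule.subset_span (LNM.step hx i)
  · rw [zero_lie]
    exact Submodule.zero_mem _
  · intro x y _ _ hx hy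
    rw [add_lie]
    exact Submodule.add_mem _ hx hy
  · intro c x _ hx
    rw [smul_lie]
    exact Submodule.smul_mem _ _ hx

theorem T_br {b : ℕ} {g : FreeLieAlgebra F ℕ} (hg : LNM F b g) :
    ∀ (a : ℕ) (f : FreeLieAlgebra F ℕ), f ∈ T F a → ⁅f, g⁆ ∈ T F (a + b) := by
  induction hg with
  | gen i =>
    intro a f hf
    exact T_step hf i
  | @step m g' h i ih =>
    intro a f hf
    rw [leibniz_lie, ← lie_skew g' ⁅f, FreeLieAlgebra.of F i⁆, ← sub_eq_add_neg]
    refine Submodule.sub_mem _ ?_ ?_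
    · exact T_step (ih a f hf) i
    · have h1 := ih (a + 1) _ (T_step hf i)
      have e : a + 1 + m = a + (m + 1) := by omega
      rwa [e] at h1

theorem T_br' {a b : ℕ} {f g : FreeLieAlgebra F ℕ} (hf : f ∈ T F a) (hg : g ∈ T F b) :
    ⁅f, g⁆ ∈ T F (a + b) := by
  refine Submodule.span_induction (p := fun g _ => ⁅f, g⁆ ∈ T F (a + b)) ?_ ?_ ?_ ?_ hg
  · intro x hx
    exact T_br hx a f hf
  · rw [lie_zero]
    exact Submodule.zero_mem _
  · intro x y _ _ hx hy
    rw [lie_add]
    exact Submodule.add_mem _ hx hy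
  · intro c x _ hx
    rw [lie_smul]
    exact Submodule.smul_mem _ _ hx

theorem mono_mem {m : ℕ} {f : FreeLieAlgebra F ℕ} (hf : IsMono F m f) : f ∈ T F m := by
  induction hf with
  | gen i => exact Submodule.subset_span (LNM.gen i)
  | br _ _ h1 h2 => exact T_br' h1 h2

theorem deg_mem {m : ℕ} {f : FreeLieAlgebra F ℕ} (hf : f ∈ degEQ F m) : f ∈ T F m := by
  have h : degEQ F m ≤ T F m := Submodule.span_le.2 fun f hf => mono_mem hf
  exact h hf

theorem LNM_pos {m : ℕ} {f : FreeLieAlgebra F ℕ} (hf : LNM F m f) : 1 ≤ m := by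
  induction hf with
  | gen i => exact le_rfl
  | step _ _ _ => omega

theorem lift_of {A : Type*} [LieRing A] [LieAlgebra F A] (y : ℕ → A) (i : ℕ) :
    FreeLieAlgebra.lift F y (FreeLieAlgebra.of F i) = y i := by
  simp

theorem lift_lnorm_congr {A : Type*} [LieRing A] [LieAlgebra F A] (y y' : ℕ → A) :
    ∀ k : ℕ, (∀ j ≤ k, y j = y' j) →
      FreeLieAlgebra.lift F y (lnorm F k) = FreeLieAlgebra.lift F y' (lnorm F k)
  | 0, h => by
    rw [lnorm, lift_of, lift_of]
    exact h 0 le_rfl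
  | k + 1, h => by
    rw [lnorm, LieHom.map_lie, LieHom.map_lie, lift_of, lift_of,
      lift_lnorm_congr y y' k (fun j hj => h j (by omega)), h (k + 1) le_rfl]

theorem lift_LNM {A : Type*} [LieRing A] [LieAlgebra F A] (y : ℕ → A) {m : ℕ}
    {g : FreeLieAlgebra F ℕ} (hg : LNM F m g) : ∀ k : ℕ, m = k + 1 →
      ∃ y' : ℕ → A, FreeLieAlgebra.lift F y g = FreeLieAlgebra.lift F y' (lnorm F k) := by
  induction hg with
  | gen i =>
    intro k hk
    have : k = 0 := by omega
    subst this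
    refine ⟨fun _ => y i, ?_⟩
    rw [lnorm, lift_of, lift_of]
  | @step m f h i ih =>
    intro k hk
    have h1 := LNM_pos h
    obtain ⟨k', rfl⟩ : ∃ k', k = k' + 1 := ⟨k - 1, by omega⟩
    obtain ⟨y', hy'⟩ := ih k' (by omega)
    refine ⟨fun j => if j ≤ k' then y' j else y i, ?_⟩
    rw [LieHom.map_lie, lnorm, LieHom.map_lie, lift_of, lift_of, hy', if_neg (by omega)]
    congr 1
    apply lift_lnorm_congr
    intro j hj
    rw [if_pos hj]

theorem sat_LNM (A : LieAlg F) {n : ℕ} (h : Sat A (lnorm F n)) {m : ℕ}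
    {g : FreeLieAlgebra F ℕ} (hg : LNM F m g) : n + 1 ≤ m → Sat A g := by
  induction hg with
  | gen i =>
    intro hm y
    obtain ⟨y', hy'⟩ := lift_LNM y (LNM.gen (F := F) i) n (by omega)
    rw [hy']
    exact h y'
  | @step m f hf i ih =>
    intro hm y
    rcases Nat.lt_or_ge n m with h1 | h1
    · rw [LieHom.map_lie, ih (by omega) y, zero_lie]
    · obtain ⟨y', hy'⟩ := lift_LNM y (LNM.step hf i) n (by omega)
      rw [hy']
      exact h y'

end Nilp

theorem sat_of_lnorm (A : LieAlg F) {n m : ℕ} (h : Sat A (lnorm F n)) (hm : n + 1 ≤ m)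
    {f : FreeLieAlgebra F ℕ} (hf : f ∈ degEQ F m) : Sat A f := by
  refine Submodule.span_induction (p := fun f _ => Sat A f) ?_ ?_ ?_ ?_ (Nilp.deg_mem hf)
  · intro x hx
    exact Nilp.sat_LNM A h hx hm
  · intro y
    exact map_zero _
  · intro x y _ _ hx hy z
    rw [map_add, hx z, hy z, add_zero]
  · intro c x _ hx z
    rw [map_smul, hx z, smul_zero]

end Pool.Agent.R672.DV
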