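import Pool.Agent.R672.DV.Span
import Pool.Agent.R672.DV.Chain
import Pool.Agent.R672.DV.Key
import Pool.Agent.R672.DV.Model
import Pool.Agent.R672.DV.Nilp

namespace Pool.Agent.R672.DV

universe u

variable {F : Type u} [Field F]

theorem dist_of_chain {V : Set (LieAlg F)}
    (h : ∀ X Y : Set (LieAlg F), IsVariety X → IsVariety Y → X ⊆ V → Y ⊆ V → X ⊆ Y ∨ Y ⊆ X) :
    IsDistributive V := by
  have hj : ∀ X Y : Set (LieAlg F), IsVariety Y → X ⊆ Y → join X Y = Y := by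
    intro X Y hY hXY
    apply Set.Subset.antisymm
    · exact Set.sInter_subset_of_mem ⟨hY, hXY, subset_rfl⟩
    · exact Set.subset_sInter (fun U hU => hU.2.2)
  have hj' : ∀ X Y : Set (LieAlg F), IsVariety X → Y ⊆ X → join X Y = X := by
    intro X Y hX hXY
    apply Set.Subset.antisymm
    · exact Set.sInter_subset_of_mem ⟨hX, subset_rfl, hXY⟩
    · exact Set.subset_sInter (fun U hU => hU.2.1)
  have hi : ∀ X Y : Set (LieAlg F), IsVariety X → IsVariety Y → IsVariety (X ∩ Y) := by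
    rintro X Y ⟨S, rfl⟩ ⟨T, rfl⟩
    refine ⟨S ∪ T, ?_⟩
    ext A
    constructor
    · rintro ⟨h1, h2⟩ f (hf | hf)
      · exact h1 f hf
      · exact h2 f hf
    · intro h1
      exact ⟨fun f hf => h1 f (Or.inl hf), fun f hf => h1 f (Or.inr hf)⟩
  intro X Y Z hX hY hZ hXV hYV hZV
  rcases h Y Z hY hZ hYV hZV with h1 | h1
  · rw [hj Y Z hZ h1, hj (X ∩ Y) (X ∩ Z) (hi X Z hX hZ) (Set.inter_subset_inter_right X h1)]
  · rw [hj' Y Z hY h1, hj' (X ∩ Y) (X ∩ Z) (hi X Y hX hY) (Set.inter_subset_inter_right X h1)]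

theorem sat_add' {A : LieAlg F} {f g : FreeLieAlgebra F ℕ} (hf : Sat A f) (hg : Sat A g) :
    Sat A (f + g) := by
  intro y
  rw [map_add, hf y, hg y, add_zero]

theorem sat_zero' {A : LieAlg F} : Sat A (0 : FreeLieAlgebra F ℕ) := by
  intro y
  rw [map_zero]

theorem sat_sum' {A : LieAlg F} {g : ℕ → FreeLieAlgebra F ℕ} {s : Finset ℕ}
    (h : ∀ m ∈ s, Sat A (g m)) : Sat A (∑ m ∈ s, g m) := by
  intro y
  rw [map_sum]
  exact Finset.sum_eq_zero (fun m hm => h m hm y)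

theorem mem_basis_sat {A : LieAlg F} {n : ℕ} (hA : A ∈ Mod (basis F n))
    (g : FreeLieAlgebra F ℕ) (hg : Sat (⟨WF F⟩ : LieAlg F) g) : Sat A g :=
  hA g (Or.inl hg)

theorem lnorm_mem_degEQ_final (n : ℕ) : lnorm F n ∈ degEQ F (n + 1) := by
  apply Submodule.subset_span
  show IsMono F (n + 1) (lnorm F n)
  induction n with
  | zero => exact IsMono.gen 0
  | succ n ih => exact IsMono.br ih (IsMono.gen (n + 1))

theorem sat_zero_comp {A : LieAlg F} {g : FreeLieAlgebra F ℕ} (hg : g ∈ degEQ F 0) : Sat A g := by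
  rw [degEQ_zero, Submodule.mem_bot] at hg
  rw [hg]
  exact sat_zero'

theorem chain' [CharZero F] (n : ℕ) (X Y : Set (LieAlg F)) (hX : IsVariety X) (hY : IsVariety Y)
    (hXV : X ⊆ Mod (basis F n)) (hYV : Y ⊆ Mod (basis F n)) (hne : ¬ X ⊆ Y) : Y ⊆ X := by
  obtain ⟨S, rfl⟩ := hX
  obtain ⟨T, rfl⟩ := hY
  rw [Set.not_subset] at hne
  obtain ⟨A, hAX, hAY⟩ := hne
  have : ∃ f ∈ T, ¬ Sat A f := by
    by_contra hcon
    push Not at hcon
    exact hAY hcon
  obtain ⟨f, hfT, hfA⟩ := this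
  obtain ⟨N, hN⟩ := exists_degLE f
  obtain ⟨g, hg, hfg⟩ := exists_decomp hN
  have hmA : ∃ m, m ≤ N ∧ ¬ Sat A (g m) := by
    by_contra hcon
    push Not at hcon
    apply hfA
    rw [hfg]
    exact sat_sum' (fun m hm => hcon m (by simpa [Nat.lt_succ_iff] using hm))
  obtain ⟨m, hmN, hmA⟩ := hmA
  have hm0 : m ≠ 0 := by
    rintro rfl
    exact hmA (sat_zero_comp (hg 0))
  obtain ⟨d, rfl⟩ := Nat.exists_eq_succ_of_ne_zero hm0
  have hAV := hXV hAX
  have hmag : magnus F (g (d + 1)) ≠ 0 := by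
    intro h0
    exact hmA (mem_basis_sat hAV _ (sat_WF_iff.2 h0))
  have hYd : ∀ B ∈ Mod T, Sat B (lnorm F d) := by
    intro B hB
    refine key (hg (d + 1)) hmag B (fun g hg => mem_basis_sat (hYV hB) g hg) ?_
    refine sat_comp B g hg N ?_ (d + 1) hmN
    rw [← hfg]
    exact hB f hfT
  have hAd : ¬ Sat A (lnorm F d) := fun hcon => hmA (sat_of_lnorm A hcon le_rfl (hg (d + 1)))
  intro B hB h hS
  obtain ⟨K, hK⟩ := exists_degLE h
  obtain ⟨k, hk, hhk⟩ := exists_decomp hK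
  rw [hhk]
  apply sat_sum'
  intro j hj
  have hjK : j ≤ K := by simpa [Nat.lt_succ_iff] using hj
  by_cases hjd : d + 1 ≤ j
  · exact sat_of_lnorm B (hYd B hB) hjd (hk j)
  · rcases Nat.eq_zero_or_pos j with hj0 | hj0
    · subst hj0
      exact sat_zero_comp (hk 0)
    · obtain ⟨e, rfl⟩ := Nat.exists_eq_succ_of_ne_zero (Nat.pos_iff_ne_zero.1 hj0)
      have hAk : Sat A (k (e + 1)) := by
        refine sat_comp A k hk K ?_ (e + 1) hjK
        rw [← hhk]
        exact hAX h hS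
      by_cases hz : magnus F (k (e + 1)) = 0
      · exact mem_basis_sat (hYV hB) _ (sat_WF_iff.2 hz)
      · exfalso
        have h1 := key (hk (e + 1)) hz A (fun g hg => mem_basis_sat hAV g hg) hAk
        exact hAd (sat_of_lnorm A h1 (by omega) (lnorm_mem_degEQ_final d))

theorem chain [CharZero F] (n : ℕ) (X Y : Set (LieAlg F)) (hX : IsVariety X) (hY : IsVariety Y)
    (hXV : X ⊆ Mod (basis F n)) (hYV : Y ⊆ Mod (basis F n)) : X ⊆ Y ∨ Y ⊆ X := by
  by_cases h : X ⊆ Y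
  · exact Or.inl h
  · exact Or.inr (chain' n X Y hX hY hXV hYV h)

theorem not_defined [CharZero F] (n : ℕ) : ¬ DefinedInDegree n (Mod (basis F n)) := by
  rintro ⟨S, hS, hV⟩
  obtain ⟨A, hA1, hA2⟩ := exists_model (F := F) n
  have hAn : A ∉ Mod (basis F n) := fun h => hA2 (h _ (Or.inr rfl))
  apply hAn
  rw [hV]
  intro f hf
  obtain ⟨g, hg, hfg⟩ := exists_decomp (hS hf)
  rw [hfg]
  apply sat_sum'
  intro m hm
  have hmn : m ≤ n := by simpa [Nat.lt_succ_iff] using hm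
  rcases Nat.eq_zero_or_pos m with hm0 | hm0
  · subst hm0
    exact sat_zero_comp (hg 0)
  obtain ⟨e, rfl⟩ := Nat.exists_eq_succ_of_ne_zero (Nat.pos_iff_ne_zero.1 hm0)
  by_cases hz : magnus F (g (e + 1)) = 0
  · exact mem_basis_sat hA1 _ (sat_WF_iff.2 hz)
  · exfalso
    obtain ⟨n', rfl⟩ := Nat.exists_eq_succ_of_ne_zero (show n ≠ 0 by omega)
    obtain ⟨B, hB1, hB2⟩ := exists_model (F := F) n'
    have hB3 : Sat B (g (e + 1)) := by
      refine sat_comp B g hg (n' + 1) ?_ (e + 1) hmn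
      have : B ∈ Mod S := by
        rw [← hV]
        exact hB1
      have := this f hf
      rw [hfg] at this
      exact this
    have h1 := key (hg (e + 1)) hz B (fun g hg => mem_basis_sat hB1 g hg) hB3
    exact hB2 (sat_of_lnorm B h1 (by omega) (lnorm_mem_degEQ_final n'))

end Pool.Agent.R672.DV
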