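import Pool.Agent.R672.DV.Chain

/-!
# The key lemma: every identity of degree `d + 1` which does not hold in the free wreath type
algebra implies (modulo the identities of that algebra) the left normed commutator of degree `d + 1`
-/

set_option autoImplicit false

namespace Pool.Agent.R672.DV

universe u

open Finset MvPolynomial

variable {F : Type u} [Field F]

/-! ### closure properties of the set of identities -/

theorem Sat.add {A : LieAlg F} {f g : FreeLieAlgebra F ℕ} (hf : Sat A f) (hg : Sat A g) :
    Sat A (f + g) := fun y => by rw [map_add, hf y, hg y, add_zero]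

theorem Sat.smul {A : LieAlg F} {f : FreeLieAlgebra F ℕ} (c : F) (hf : Sat A f) :
    Sat A (c • f) := fun y => by rw [map_smul, hf y, smul_zero]

theorem Sat.sub {A : LieAlg F} {f g : FreeLieAlgebra F ℕ} (hf : Sat A f) (hg : Sat A g) :
    Sat A (f - g) := fun y => by rw [map_sub, hf y, hg y, sub_zero]

theorem lift_lift {A : Type*} [LieRing A] [LieAlgebra F A] (y : ℕ → A)
    (s : ℕ → FreeLieAlgebra F ℕ) (f : FreeLieAlgebra F ℕ) :
    FreeLieAlgebra.lift F y (FreeLieAlgebra.lift F s f) =
      FreeLieAlgebra.lift F (fun i => FreeLieAlgebra.lift F y (s i)) f := by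
  have : (FreeLieAlgebra.lift F y).comp (FreeLieAlgebra.lift F s) =
      FreeLieAlgebra.lift F (fun i => FreeLieAlgebra.lift F y (s i)) := by
    apply FreeLieAlgebra.hom_ext
    intro i
    simp
  rw [← this]; rfl

theorem Sat.subst {A : LieAlg F} {f : FreeLieAlgebra F ℕ} (s : ℕ → FreeLieAlgebra F ℕ)
    (hf : Sat A f) : Sat A (FreeLieAlgebra.lift F s f) := fun y => by
  rw [lift_lift]; exact hf _

theorem magnus_lift (s : ℕ → FreeLieAlgebra F ℕ) (f : FreeLieAlgebra F ℕ) :
    magnus F (FreeLieAlgebra.lift F s f) = FreeLieAlgebra.lift F (fun i => magnus F (s i)) f :=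
  lift_lift _ s f

/-! ### substitutions preserve the degree -/

theorem degEQ_br {a b : ℕ} {f g : FreeLieAlgebra F ℕ} (hf : f ∈ degEQ F a) (hg : g ∈ degEQ F b) :
    ⁅f, g⁆ ∈ degEQ F (a + b) := by
  unfold degEQ at hf hg
  induction hf using Submodule.span_induction with
  | mem x hx =>
    induction hg using Submodule.span_induction with
    | mem y hy => exact Submodule.subset_span (IsMono.br hx hy)
    | zero => rw [lie_zero]; exact Submodule.zero_mem _
    | add y z _ _ h1 h2 => rw [lie_add]; exact Submodule.add_mem _ h1 h2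
    | smul c y _ h => rw [lie_smul]; exact Submodule.smul_mem _ _ h
  | zero => rw [zero_lie]; exact Submodule.zero_mem _
  | add y z _ _ h1 h2 => rw [add_lie]; exact Submodule.add_mem _ h1 h2
  | smul c y _ h => rw [smul_lie]; exact Submodule.smul_mem _ _ h

theorem subst_degEQ (s : ℕ → FreeLieAlgebra F ℕ) (hs : ∀ i, s i ∈ degEQ F 1) {m : ℕ}
    {f : FreeLieAlgebra F ℕ} (hf : f ∈ degEQ F m) : FreeLieAlgebra.lift F s f ∈ degEQ F m := by
  have hmono : ∀ {m : ℕ} {f : FreeLieAlgebra F ℕ}, IsMono F m f →
      FreeLieAlgebra.lift F s f ∈ degEQ F m := by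
    intro m f h
    induction h with
    | gen i => rw [FreeLieAlgebra.lift_of_apply]; exact hs i
    | br _ _ h1 h2 => rw [LieHom.map_lie]; exact degEQ_br h1 h2
  unfold degEQ at hf
  induction hf using Submodule.span_induction with
  | mem x hx => exact hmono hx
  | zero => rw [map_zero]; exact Submodule.zero_mem _
  | add y z _ _ h1 h2 => rw [map_add]; exact Submodule.add_mem _ h1 h2
  | smul c y _ h => rw [map_smul]; exact Submodule.smul_mem _ _ h

theorem of_mem_degEQ (i : ℕ) : FreeLieAlgebra.of F i ∈ degEQ F 1 :=
  Submodule.subset_span (IsMono.gen i)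

/-! ### the effect of a substitution on the second component -/

theorem magnus_lift_snd (s : ℕ → FreeLieAlgebra F ℕ) (f : FreeLieAlgebra F ℕ) (k : ℕ) :
    (magnus F (FreeLieAlgebra.lift F s f)).2 k =
      ((magnus F f).2).sum (fun i p =>
        MvPolynomial.aeval (fun l => tlin F (magnus F (s l)).1) p * (magnus F (s i)).2 k) := by
  rw [magnus_lift, lift_wr]
  simp only [Finsupp.sum]
  rw [Finsupp.finsetSum_apply]
  rfl

theorem magnus_of_fst (i : ℕ) : (magnus F (FreeLieAlgebra.of F i)).1 = Finsupp.single i 1 :=
  congrArg Prod.fst (magnus_of i)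

theorem magnus_of_snd (i : ℕ) : (magnus F (FreeLieAlgebra.of F i)).2 = Finsupp.single i 1 :=
  congrArg Prod.snd (magnus_of i)

theorem magnus_perm_snd (σ : Equiv.Perm ℕ) (f : FreeLieAlgebra F ℕ) (k : ℕ) :
    (magnus F (FreeLieAlgebra.lift F (fun i => FreeLieAlgebra.of F (σ i)) f)).2 k =
      rename σ ((magnus F f).2 (σ.symm k)) := by
  rw [magnus_lift_snd]
  simp only [magnus_of_fst, magnus_of_snd, tlin_single]
  refine (Finset.sum_eq_single (σ.symm k) ?_ ?_).trans ?_
  · intro b _ hb
    dsimp only
    rw [Finsupp.single_apply, if_neg, mul_zero]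
    intro h
    exact hb (by rw [← h, Equiv.symm_apply_apply])
  · intro h
    dsimp only
    rw [Finsupp.notMem_support_iff.1 h, map_zero, zero_mul]
  · dsimp only
    rw [Equiv.apply_symm_apply, Finsupp.single_eq_same, mul_one]
    have h : (aeval fun l => (X (σ l) : MvPolynomial ℕ F)) = rename σ := by
      apply MvPolynomial.algHom_ext
      intro i
      simp
    rw [h]

/-- the substitution `x_j ↦ 0` -/
noncomputable def kill (F : Type u) [Field F] (j : ℕ) (f : FreeLieAlgebra F ℕ) :
    FreeLieAlgebra F ℕ :=
  FreeLieAlgebra.lift F (fun i => if i = j then 0 else FreeLieAlgebra.of F i) f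

theorem kill_mem {j m : ℕ} {f : FreeLieAlgebra F ℕ} (hf : f ∈ degEQ F m) :
    kill F j f ∈ degEQ F m := by
  refine subst_degEQ _ (fun i => ?_) hf
  split_ifs
  · exact Submodule.zero_mem _
  · exact of_mem_degEQ i

theorem coeff_zero_subst (j : ℕ) (p : MvPolynomial ℕ F) (m : ℕ →₀ ℕ) :
    coeff m (aeval (fun l => if l = j then (0 : MvPolynomial ℕ F) else X l) p) =
      if m j = 0 then coeff m p else 0 := by
  induction p using MvPolynomial.induction_on' with
  | monomial n c =>
    rw [aeval_monomial, coeff_monomial]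
    have h1 : (n.prod fun i k => (if i = j then (0 : MvPolynomial ℕ F) else X i) ^ k) =
        if n j = 0 then monomial n 1 else 0 := by
      split_ifs with h
      · rw [monomial_eq, C_1, one_mul]
        apply Finsupp.prod_congr
        intro i hi
        rw [if_neg]
        rintro rfl
        exact (Finsupp.mem_support_iff.1 hi) h
      · unfold Finsupp.prod
        refine Finset.prod_eq_zero (Finsupp.mem_support_iff.2 h) ?_
        dsimp only
        rw [if_pos rfl, zero_pow h]
    rw [h1]
    by_cases hn : n j = 0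
    · rw [if_pos hn, algebraMap_eq, coeff_C_mul, coeff_monomial]
      by_cases hm : n = m
      · subst hm
        rw [if_pos rfl, if_pos hn, if_pos rfl, mul_one]
      · rw [if_neg hm, if_neg hm, mul_zero, ite_self]
    · rw [if_neg hn, mul_zero, coeff_zero]
      split_ifs with hm hnm
      · subst hnm
        exact absurd hm hn
      · rfl
      · rfl
  | add p q hp hq =>
    rw [map_add, coeff_add, hp, hq, coeff_add]
    split_ifs <;> simp

theorem magnus_kill_snd (j : ℕ) (f : FreeLieAlgebra F ℕ) (k : ℕ) (m : ℕ →₀ ℕ) :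
    coeff m ((magnus F (kill F j f)).2 k) =
      if k ≠ j ∧ m j = 0 then coeff m ((magnus F f).2 k) else 0 := by
  have h1 : (magnus F (kill F j f)).2 k = if k = j then 0 else
      aeval (fun l => if l = j then (0 : MvPolynomial ℕ F) else X l) ((magnus F f).2 k) := by
    unfold kill
    rw [magnus_lift_snd]
    have e1 : ∀ l, tlin F (magnus F (if l = j then (0 : FreeLieAlgebra F ℕ) else
        FreeLieAlgebra.of F l)).1 = if l = j then (0 : MvPolynomial ℕ F) else X l := by
      intro l
      split_ifs
      · rw [map_zero]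
        exact map_zero _
      · rw [magnus_of_fst, tlin_single]
    have e2 : ∀ l, (magnus F (if l = j then (0 : FreeLieAlgebra F ℕ) else
        FreeLieAlgebra.of F l)).2 k = if l = j then (0 : MvPolynomial ℕ F) else
          (Finsupp.single l (1 : MvPolynomial ℕ F)) k := by
      intro l
      split_ifs
      · rw [map_zero]
        rfl
      · rw [magnus_of_snd]
    simp only [e1, e2]
    refine (Finset.sum_eq_single k ?_ ?_).trans ?_
    · intro b _ hb
      dsimp only
      split_ifs
      · rw [mul_zero]
      · rw [Finsupp.single_apply, if_neg hb, mul_zero]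
    · intro h
      dsimp only
      rw [Finsupp.notMem_support_iff.1 h, map_zero, zero_mul]
    · dsimp only
      split_ifs with h
      · rw [mul_zero]
      · rw [Finsupp.single_eq_same, mul_one]
  rw [h1]
  by_cases hk : k = j
  · simp [hk]
  · rw [if_neg hk, coeff_zero_subst]
    simp [hk]

theorem coeff_sub_kill (j : ℕ) (f : FreeLieAlgebra F ℕ) (k : ℕ) (m : ℕ →₀ ℕ) :
    coeff m ((magnus F (f - kill F j f)).2 k) =
      if k ≠ j ∧ m j = 0 then 0 else coeff m ((magnus F f).2 k) := by
  have h1 : (magnus F (f - kill F j f)).2 k =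
      (magnus F f).2 k - (magnus F (kill F j f)).2 k := by
    rw [map_sub]; rfl
  rw [h1, coeff_sub, magnus_kill_snd]
  split_ifs <;> simp

end Pool.Agent.R672.DV
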