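import Pool.Agent.R672.DV.Defs

/-!
# The model (MP_b4a71d_al), everything except the identities of the wreath type algebras
-/

set_option autoImplicit false

namespace Pool.Agent.R672.DV

universe u

variable {F : Type u} [Field F]

open Polynomial

/-- `c ↦ c X` -/
noncomputable def mlin (F : Type u) [Field F] : F →ₗ[F] F[X] := LinearMap.toSpanSingleton F F[X] X

/-- the module `F[X] / (X^(n+1))` -/
abbrev MM (F : Type u) [Field F] (n : ℕ) : Type u := F[X] ⧸ Ideal.span {(X : F[X]) ^ (n + 1)}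

/-- the model -/
noncomputable def modelAlg (F : Type u) [Field F] (n : ℕ) : LieAlg F :=
  (⟨Wr (mlin F) (MM F n)⟩ : LieAlg F)

/-- elements of the model -/
noncomputable def mkW (n : ℕ) (a : F) (m : MM F n) : Wr (mlin F) (MM F n) := (a, m)

@[simp] theorem mkW_fst (n : ℕ) (a : F) (m : MM F n) : (mkW n a m).1 = a := rfl
@[simp] theorem mkW_snd (n : ℕ) (a : F) (m : MM F n) : (mkW n a m).2 = m := rfl

theorem mlin_apply (c : F) : mlin F c = C c * X := by
  simp [mlin, LinearMap.toSpanSingleton_apply, smul_eq_C_mul]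

theorem lift_succ {A : Type*} [LieRing A] [LieAlgebra F A] (y : ℕ → A) (k : ℕ) :
    FreeLieAlgebra.lift F y (lnorm F (k + 1)) =
      ⁅FreeLieAlgebra.lift F y (lnorm F k), y (k + 1)⁆ := by
  rw [lnorm, LieHom.map_lie, FreeLieAlgebra.lift_of_apply]

theorem lift_zero' {A : Type*} [LieRing A] [LieAlgebra F A] (y : ℕ → A) :
    FreeLieAlgebra.lift F y (lnorm F 0) = y 0 := by
  rw [lnorm, FreeLieAlgebra.lift_of_apply]

theorem lnorm_wr (n : ℕ) (y : ℕ → Wr (mlin F) (MM F n)) (k : ℕ) :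
    ∃ m : MM F n, FreeLieAlgebra.lift F y (lnorm F (k + 1)) =
      mkW n 0 ((X : F[X]) ^ (k + 1) • m) := by
  induction k with
  | zero =>
    refine ⟨(C (y 1).1 : F[X]) • (y 0).2 - (C (y 0).1 : F[X]) • (y 1).2, ?_⟩
    rw [lift_succ, lift_zero']
    apply Wr.ext
    · rfl
    · rw [Wr.bracket_snd, mlin_apply, mlin_apply, mkW_snd, smul_sub, smul_smul, smul_smul,
        zero_add, pow_one, mul_comm X, mul_comm X]
  | succ k ih =>
    obtain ⟨m, hm⟩ := ih
    refine ⟨(C (y (k + 1 + 1)).1 : F[X]) • m, ?_⟩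
    rw [lift_succ, hm]
    apply Wr.ext
    · rfl
    · rw [Wr.bracket_snd, mlin_apply, mlin_apply, mkW_snd, mkW_snd, mkW_fst,
        C_0, zero_mul, zero_smul, sub_zero, smul_smul, smul_smul]
      congr 1
      ring

theorem pow_smul_MM (n : ℕ) (m : MM F n) : (X : F[X]) ^ (n + 1) • m = 0 := by
  obtain ⟨q, rfl⟩ := Ideal.Quotient.mk_surjective m
  have h : (X : F[X]) ^ (n + 1) • (Ideal.Quotient.mk (Ideal.span {(X : F[X]) ^ (n + 1)}) q) =
      Ideal.Quotient.mk (Ideal.span {(X : F[X]) ^ (n + 1)}) ((X : F[X]) ^ (n + 1) * q) := rfl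
  rw [h, Ideal.Quotient.eq_zero_iff_mem, Ideal.mem_span_singleton]
  exact dvd_mul_right _ _

theorem model_lnorm_succ (n : ℕ) : Sat (modelAlg F n) (lnorm F (n + 1)) := by
  intro y
  obtain ⟨m, hm⟩ := lnorm_wr n y n
  rw [pow_smul_MM] at hm
  exact hm

/-- the test point -/
noncomputable def tpt (F : Type u) [Field F] (n : ℕ) : ℕ → Wr (mlin F) (MM F n)
  | 0 => mkW n 0 1
  | _ + 1 => mkW n 1 0

theorem tpt_succ (n k : ℕ) : tpt F n (k + 1) = mkW n 1 0 := rfl

theorem lnorm_tpt (n k : ℕ) : FreeLieAlgebra.lift F (tpt F n) (lnorm F k) =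
    mkW n 0 ((X : F[X]) ^ k • (1 : MM F n)) := by
  induction k with
  | zero =>
    rw [lift_zero', pow_zero, one_smul]
    rfl
  | succ k ih =>
    rw [lift_succ, ih, tpt_succ]
    apply Wr.ext
    · rfl
    · rw [Wr.bracket_snd, mlin_apply, mlin_apply, mkW_snd, mkW_snd, mkW_fst, mkW_fst, mkW_snd,
        C_0, zero_mul, zero_smul, sub_zero, smul_smul, C_1, one_mul, ← pow_succ' X k]

theorem model_not_lnorm (n : ℕ) : ¬ Sat (modelAlg F n) (lnorm F n) := by
  intro h
  have h1 : FreeLieAlgebra.lift F (tpt F n) (lnorm F n) = 0 := h (tpt F n)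
  rw [lnorm_tpt] at h1
  have h2 : (X : F[X]) ^ n • (1 : MM F n) = 0 := congrArg Prod.snd h1
  have h3 : (X : F[X]) ^ n • (1 : MM F n) =
      Ideal.Quotient.mk (Ideal.span {(X : F[X]) ^ (n + 1)}) ((X : F[X]) ^ n * 1) := rfl
  rw [h3, mul_one, Ideal.Quotient.eq_zero_iff_mem, Ideal.mem_span_singleton] at h2
  have h4 := Polynomial.natDegree_le_of_dvd h2 (pow_ne_zero _ X_ne_zero)
  rw [natDegree_X_pow, natDegree_X_pow] at h4
  omega

/-- the model, from the two facts of `Chain.lean`: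
`exists_model n := exists_model_of n (fun _ hf => sat_WF_iff.1 hf) (fun _ hf => sat_wr _ hf)` -/
theorem exists_model_of (n : ℕ)
    (h1 : ∀ f, Sat (⟨WF F⟩ : LieAlg F) f → magnus F f = 0)
    (h2 : ∀ f, magnus F f = 0 → Sat (⟨Wr (mlin F) (MM F n)⟩ : LieAlg F) f) :
    ∃ A : LieAlg F, A ∈ Mod (basis F (n + 1)) ∧ ¬ Sat A (lnorm F n) := by
  refine ⟨modelAlg F n, ?_, model_not_lnorm n⟩
  rintro f (hf | hf)
  · exact h2 f (h1 f hf)
  · rw [Set.mem_singleton_iff] at hf
    rw [hf]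
    exact model_lnorm_succ n

end Pool.Agent.R672.DV
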