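import Pool.Agent.R672.DV.Defs

/-!
# Degree decomposition in the free Lie algebra (helper619 for helper672)
-/

namespace Pool.Agent.R672.DV

universe u

variable {F : Type u} [Field F]

/-- The span of all monomials. -/
noncomputable def monoSpan (F : Type u) [Field F] : Submodule F (FreeLieAlgebra F ℕ) :=
  Submodule.span F {f | ∃ m, IsMono F m f}

theorem monoSpan_lie {f g : FreeLieAlgebra F ℕ} (hf : f ∈ monoSpan F) (hg : g ∈ monoSpan F) :
    ⁅f, g⁆ ∈ monoSpan F := by
  unfold monoSpan at hf
  induction hf using Submodule.span_induction with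
  | mem x hx =>
    obtain ⟨a, ha⟩ := hx
    unfold monoSpan at hg
    induction hg using Submodule.span_induction with
    | mem y hy =>
      obtain ⟨b, hb⟩ := hy
      exact Submodule.subset_span ⟨a + b, IsMono.br ha hb⟩
    | zero => rw [lie_zero]; exact zero_mem _
    | add y z _ _ hy hz => rw [lie_add]; exact add_mem hy hz
    | smul c y _ hy => rw [lie_smul]; exact Submodule.smul_mem _ _ hy
  | zero => rw [zero_lie]; exact zero_mem _
  | add y z _ _ hy hz => rw [add_lie]; exact add_mem hy hz
  | smul c y _ hy => rw [smul_lie]; exact Submodule.smul_mem _ _ hy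

/-- The span of all monomials as a Lie subalgebra. -/
noncomputable def monoSub (F : Type u) [Field F] : LieSubalgebra F (FreeLieAlgebra F ℕ) :=
  { monoSpan F with lie_mem' := fun hf hg => monoSpan_lie hf hg }

theorem mem_monoSpan (f : FreeLieAlgebra F ℕ) : f ∈ monoSpan F := by
  let φ : FreeLieAlgebra F ℕ →ₗ⁅F⁆ monoSub F :=
    FreeLieAlgebra.lift F (fun i => (⟨FreeLieAlgebra.of F i,
      Submodule.subset_span ⟨1, IsMono.gen i⟩⟩ : monoSub F))
  have h : (monoSub F).incl.comp φ = LieHom.id := by
    apply FreeLieAlgebra.hom_ext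
    intro i
    simp [φ]
  have h2 : ((φ f : monoSub F) : FreeLieAlgebra F ℕ) = f := by
    have := congrArg (fun ψ : FreeLieAlgebra F ℕ →ₗ⁅F⁆ FreeLieAlgebra F ℕ => ψ f) h
    simpa using this
  rw [← h2]
  exact (φ f).2

theorem degLE_mono {m n : ℕ} (h : m ≤ n) : degLE F m ≤ degLE F n := by
  unfold degLE
  apply Submodule.span_mono
  rintro f ⟨k, hk, hf⟩
  exact ⟨k, hk.trans h, hf⟩

theorem exists_degLE (f : FreeLieAlgebra F ℕ) : ∃ n, f ∈ degLE F n := by
  have hf := mem_monoSpan f
  unfold monoSpan at hf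
  induction hf using Submodule.span_induction with
  | mem x hx =>
    obtain ⟨a, ha⟩ := hx
    exact ⟨a, Submodule.subset_span ⟨a, le_rfl, ha⟩⟩
  | zero => exact ⟨0, zero_mem _⟩
  | add y z _ _ hy hz =>
    obtain ⟨a, ha⟩ := hy
    obtain ⟨b, hb⟩ := hz
    exact ⟨max a b, add_mem (degLE_mono (le_max_left _ _) ha) (degLE_mono (le_max_right _ _) hb)⟩
  | smul c y _ hy =>
    obtain ⟨a, ha⟩ := hy
    exact ⟨a, Submodule.smul_mem _ _ ha⟩

theorem exists_decomp {n : ℕ} {f : FreeLieAlgebra F ℕ} (hf : f ∈ degLE F n) :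
    ∃ g : ℕ → FreeLieAlgebra F ℕ, (∀ m, g m ∈ degEQ F m) ∧
      f = ∑ m ∈ Finset.range (n + 1), g m := by
  unfold degLE at hf
  induction hf using Submodule.span_induction with
  | mem x hx =>
    obtain ⟨m, hm, hx⟩ := hx
    refine ⟨fun k => if k = m then x else 0, ?_, ?_⟩
    · intro k
      by_cases hk : k = m
      · subst hk
        simp only [if_true]
        exact Submodule.subset_span hx
      · simp only [hk, if_false]
        exact zero_mem _
    · rw [Finset.sum_ite_eq' (Finset.range (n + 1)) m (fun _ => x)]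
      rw [if_pos (Finset.mem_range.2 (by omega))]
  | zero => exact ⟨fun _ => 0, fun m => zero_mem _, by simp⟩
  | add y z _ _ hy hz =>
    obtain ⟨a, ha, ha'⟩ := hy
    obtain ⟨b, hb, hb'⟩ := hz
    refine ⟨fun m => a m + b m, fun m => add_mem (ha m) (hb m), ?_⟩
    rw [Finset.sum_add_distrib, ← ha', ← hb']
  | smul c y _ hy =>
    obtain ⟨a, ha, ha'⟩ := hy
    refine ⟨fun m => c • a m, fun m => Submodule.smul_mem _ _ (ha m), ?_⟩
    rw [← Finset.smul_sum, ← ha']

theorem lift_scale {A : Type*} [LieRing A] [LieAlgebra F A] (y : ℕ → A) (s : F) {m : ℕ}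
    {f : FreeLieAlgebra F ℕ} (hf : f ∈ degEQ F m) :
    FreeLieAlgebra.lift F (fun i => s • y i) f = s ^ m • FreeLieAlgebra.lift F y f := by
  unfold degEQ at hf
  induction hf using Submodule.span_induction with
  | mem x hx =>
    have hx' : IsMono F m x := hx
    clear hx
    induction hx' with
    | gen i => simp
    | br hf hg ihf ihg =>
      rw [LieHom.map_lie, LieHom.map_lie, ihf, ihg, smul_lie, lie_smul, smul_smul, pow_add]
  | zero => simp
  | add y z _ _ hy hz => rw [map_add, map_add, hy, hz, smul_add]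
  | smul c y _ hy => rw [map_smul, map_smul, hy, smul_comm]

theorem sat_comp [CharZero F] (A : LieAlg F) (g : ℕ → FreeLieAlgebra F ℕ)
    (hg : ∀ m, g m ∈ degEQ F m) (n : ℕ) (h : Sat A (∑ m ∈ Finset.range (n + 1), g m)) :
    ∀ m, m ≤ n → Sat A (g m) := by
  intro m hm y
  have h1 : ∀ s : F, ∑ k ∈ Finset.range (n + 1), s ^ k • FreeLieAlgebra.lift F y (g k) = 0 := by
    intro s
    have h2 := h (fun i => s • y i)
    rw [map_sum] at h2
    rw [← h2]
    exact Finset.sum_congr rfl fun k _ => (lift_scale y s (hg k)).symm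
  rw [← Module.forall_dual_apply_eq_zero_iff F]
  intro φ
  let P : Polynomial F := ∑ k ∈ Finset.range (n + 1),
    Polynomial.C (φ (FreeLieAlgebra.lift F y (g k))) * Polynomial.X ^ k
  have hP : P = 0 := by
    apply Polynomial.funext
    intro s
    have h3 := congrArg φ (h1 s)
    rw [map_sum, map_zero] at h3
    simp only [map_smul, smul_eq_mul] at h3
    simp only [P, Polynomial.eval_finsetSum, Polynomial.eval_mul, Polynomial.eval_C,
      Polynomial.eval_pow, Polynomial.eval_X, Polynomial.eval_zero]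
    rw [← h3]
    exact Finset.sum_congr rfl fun k _ => mul_comm _ _
  have h4 := congrArg (fun Q : Polynomial F => Q.coeff m) hP
  simp only [P, Polynomial.finsetSum_coeff, Polynomial.coeff_C_mul, Polynomial.coeff_X_pow,
    Polynomial.coeff_zero, mul_ite, mul_one, mul_zero] at h4
  rw [Finset.sum_ite_eq, if_pos (Finset.mem_range.2 (by omega))] at h4
  exact h4

theorem IsMono.one_le {m : ℕ} {f : FreeLieAlgebra F ℕ} (h : IsMono F m f) : 1 ≤ m := by
  induction h with
  | gen i => exact le_rfl
  | br _ _ iha ihb => omega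

theorem degEQ_zero : degEQ F 0 = ⊥ := by
  unfold degEQ
  rw [Submodule.span_eq_bot]
  intro x hx
  exact absurd (IsMono.one_le hx) (by norm_num)

end Pool.Agent.R672.DV
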